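import Mathlib

/-! # Signs of Cauchy determinants -/

namespace OkamotoTP

open Matrix Finset

theorem det_pivot {k : ℕ} (M : Matrix (Fin (k + 1)) (Fin (k + 1)) ℝ) (h0 : M 0 0 ≠ 0) :
    M.det = M 0 0 *
      (Matrix.of fun i j : Fin k => M i.succ j.succ - M i.succ 0 / M 0 0 * M 0 j.succ).det := by
  set B : Matrix (Fin (k + 1)) (Fin (k + 1)) ℝ :=
    Matrix.of fun i j => if i = 0 then M 0 j else M i j - M i 0 / M 0 0 * M 0 j with hB
  have h1 : M.det = B.det := by
    apply Matrix.det_eq_of_forall_row_eq_smul_add_const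
      (fun i => if i = 0 then 0 else M i 0 / M 0 0) 0 (by simp)
    intro i j
    by_cases hi : i = 0
    · simp [hB, hi]
    · simp [hB, hi]
  rw [h1, Matrix.det_succ_column_zero, Finset.sum_eq_single 0]
  · have e : (B.submatrix (Fin.succAbove 0) Fin.succ) =
        (Matrix.of fun i j : Fin k => M i.succ j.succ - M i.succ 0 / M 0 0 * M 0 j.succ) := by
      ext i j
      simp [hB]
    rw [e]
    simp [hB]
  · intro i _ hi
    have : B i 0 = 0 := by
      simp only [hB, Matrix.of_apply, if_neg hi]
      field_simp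
      ring
    rw [this]; simp
  · intro h; exact absurd (Finset.mem_univ _) h

theorem cauchy_sign : ∀ (k : ℕ) (x y : Fin k → ℝ), StrictAnti x → StrictMono y →
    (∀ i j, 0 < x i + y j) →
    0 < (-1 : ℝ) ^ (∑ i ∈ Finset.range k, i) * (Matrix.of fun i j => 1 / (x i + y j)).det := by
  intro k
  induction k with
  | zero => intro x y _ _ _; simp
  | succ k ih =>
    intro x y hx hy hxy
    have hM00 : (Matrix.of fun i j => 1 / (x i + y j)) 0 0 ≠ 0 := by
      simp only [Matrix.of_apply]
      exact (one_div_pos.mpr (hxy 0 0)).ne'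
    rw [det_pivot _ hM00]
    have e : (Matrix.of fun i j : Fin k =>
        (Matrix.of fun i j => 1 / (x i + y j)) i.succ j.succ -
        (Matrix.of fun i j => 1 / (x i + y j)) i.succ 0 /
          (Matrix.of fun i j => 1 / (x i + y j)) 0 0 *
          (Matrix.of fun i j => 1 / (x i + y j)) 0 j.succ) =
        Matrix.of fun i j : Fin k => ((x 0 - x i.succ) / (x i.succ + y 0)) *
          (Matrix.of (fun i j : Fin k => (-((y j.succ - y 0) / (x 0 + y j.succ))) *
            (Matrix.of (fun i j : Fin k => 1 / (x i.succ + y j.succ)) i j)) i j) := by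
      ext i j
      simp only [Matrix.of_apply]
      have h1 := (hxy i.succ j.succ).ne'
      have h2 := (hxy i.succ 0).ne'
      have h3 := (hxy 0 j.succ).ne'
      have h4 := (hxy 0 0).ne'
      field_simp
      ring
    rw [e, Matrix.det_mul_column, Matrix.det_mul_row]
    have hih := ih (fun i => x i.succ) (fun j => y j.succ)
      (fun i j hij => hx (Fin.succ_lt_succ_iff.mpr hij))
      (fun i j hij => hy (Fin.succ_lt_succ_iff.mpr hij)) (fun i j => hxy _ _)
    rw [Finset.prod_neg, Finset.card_univ, Fintype.card_fin, Finset.sum_range_succ, pow_add]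
    have p1 : 0 < ∏ i : Fin k, ((x 0 - x i.succ) / (x i.succ + y 0)) := by
      refine Finset.prod_pos fun i _ => div_pos ?_ (hxy _ _)
      exact sub_pos.mpr (hx (Fin.succ_pos i))
    have p2 : 0 < ∏ j : Fin k, ((y j.succ - y 0) / (x 0 + y j.succ)) := by
      refine Finset.prod_pos fun j _ => div_pos ?_ (hxy _ _)
      exact sub_pos.mpr (hy (Fin.succ_pos j))
    have p0 : 0 < (Matrix.of fun i j => 1 / (x i + y j)) 0 0 := by
      simp only [Matrix.of_apply]
      exact one_div_pos.mpr (hxy 0 0)
    have hsq : ((-1 : ℝ) ^ k) * ((-1 : ℝ) ^ k) = 1 := by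
      rw [← pow_add]; exact Even.neg_one_pow ⟨_, rfl⟩
    have := mul_pos (mul_pos (mul_pos p0 p1) p2) hih
    calc (0 : ℝ) < _ := this
      _ = ((-1 : ℝ) ^ k * (-1 : ℝ) ^ k) * (_ ) := by rw [hsq, one_mul]
      _ = _ := by ring

end OkamotoTP
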