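import Mathlib

/-! # Desnanot-Jacobi identity over an integral domain -/

namespace OkamotoTP

open Matrix Finset

variable {R : Type*} [CommRing R]

theorem det_update_two {n : ℕ} (M : Matrix (Fin (n + 2)) (Fin (n + 2)) R) :
    ((M.updateRow 0 (Pi.single 0 1)).updateRow (Fin.last _) (Pi.single (Fin.last _) 1)).det =
      (M.submatrix (fun i : Fin n => i.succ.castSucc) (fun i : Fin n => i.succ.castSucc)).det := by
  rw [← Matrix.adjugate_apply, Matrix.adjugate_fin_succ_eq_det_submatrix]
  have hs : ((-1 : R) ^ ((Fin.last (n + 1) : Fin (n + 2)) + (Fin.last (n + 1) : Fin (n + 2)) : ℕ)) = 1 :=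
    Even.neg_one_pow ⟨_, rfl⟩
  rw [hs, one_mul]
  have e : ((M.updateRow 0 (Pi.single 0 1)).submatrix (Fin.last (n + 1)).succAbove
      (Fin.last (n + 1)).succAbove) =
      (M.submatrix (Fin.castSucc : Fin (n + 1) → Fin (n + 2)) Fin.castSucc).updateRow 0
        (Pi.single 0 1) := by
    ext i j
    rw [Matrix.submatrix_apply, Fin.succAbove_last]
    by_cases hi : i = 0
    · subst hi
      simp only [Matrix.updateRow_self]
      have : (Fin.castSucc (0 : Fin (n + 1)) : Fin (n + 2)) = 0 := rfl
      rw [this, Matrix.updateRow_self]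
      by_cases hj : j = 0
      · subst hj; simp
      · rw [Pi.single_eq_of_ne, Pi.single_eq_of_ne hj]
        intro h
        exact hj (Fin.castSucc_injective _ (by simpa using h))
    · rw [Matrix.updateRow_ne hi, Matrix.updateRow_ne]
      · rfl
      · intro h
        exact hi (Fin.castSucc_injective _ (by simpa using h))
  rw [e, ← Matrix.adjugate_apply, Matrix.adjugate_fin_succ_eq_det_submatrix]
  simp only [Fin.val_zero, add_zero, pow_zero, one_mul, Fin.succAbove_zero,
    Matrix.submatrix_submatrix]
  rfl

theorem det_one_update_two {n : ℕ} (a b : Fin (n + 2) → R) :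
    (((1 : Matrix (Fin (n + 2)) (Fin (n + 2)) R).updateRow 0 a).updateRow (Fin.last _) b).det =
      a 0 * b (Fin.last _) - a (Fin.last _) * b 0 := by
  have h0 : (0 : Fin (n + 2)) ≠ Fin.last (n + 1) := (Fin.last_pos).ne
  set U : Matrix (Fin (n + 2)) (Fin 2) R :=
    fun i j => if j = 0 then (if i = 0 then 1 else 0) else (if i = Fin.last _ then 1 else 0) with hU
  set V : Matrix (Fin 2) (Fin (n + 2)) R :=
    fun i j => if i = 0 then a j - (if j = 0 then 1 else 0)
      else b j - (if j = Fin.last _ then 1 else 0) with hV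
  have e : (((1 : Matrix (Fin (n + 2)) (Fin (n + 2)) R).updateRow 0 a).updateRow (Fin.last _) b) =
      1 + U * V := by
    ext i j
    rw [Matrix.add_apply, Matrix.mul_apply, Fin.sum_univ_two]
    by_cases hi : i = Fin.last _
    · subst hi
      rw [Matrix.updateRow_self]
      simp only [hU, hV, if_true, h0.symm, if_false, Matrix.one_apply]
      by_cases hj : j = Fin.last _
      · subst hj; simp
      · have : (Fin.last (n + 1)) ≠ j := fun h => hj h.symm
        simp [hj, this]
    · rw [Matrix.updateRow_ne hi]
      by_cases hi0 : i = 0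
      · subst hi0
        rw [Matrix.updateRow_self]
        simp only [hU, hV, if_true, h0, if_false, Matrix.one_apply]
        by_cases hj : j = 0
        · subst hj; simp
        · have : (0 : Fin (n + 2)) ≠ j := fun h => hj h.symm
          simp [hj, this]
      · rw [Matrix.updateRow_ne hi0]
        simp [hU, hi0, hi]
  rw [e, Matrix.det_one_add_mul_comm, Matrix.det_fin_two]
  simp only [Matrix.add_apply, Matrix.mul_apply, Matrix.one_apply]
  have s1 : ∀ f : Fin (n + 2) → R, ∑ x, f x * (if x = 0 then (1:R) else 0) = f 0 := by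
    intro f; simp
  have s2 : ∀ f : Fin (n + 2) → R, ∑ x, f x * (if x = Fin.last _ then (1:R) else 0) = f (Fin.last _) := by
    intro f; simp
  simp only [hU, if_true, one_ne_zero, if_false]
  rw [s1, s1, s2, s2]
  simp [hV, h0, h0.symm]

/-- Desnanot-Jacobi identity. -/
theorem desnanot_jacobi [IsDomain R] {n : ℕ} (M : Matrix (Fin (n + 2)) (Fin (n + 2)) R)
    (hM : M.det ≠ 0) :
    M.det * (M.submatrix (fun i : Fin n => i.succ.castSucc) (fun i : Fin n => i.succ.castSucc)).det =
      (M.submatrix Fin.succ Fin.succ).det * (M.submatrix Fin.castSucc Fin.castSucc).det -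
      (M.submatrix Fin.succ Fin.castSucc).det * (M.submatrix Fin.castSucc Fin.succ).det := by
  set C := (((1 : Matrix (Fin (n + 2)) (Fin (n + 2)) R).updateRow 0 (M.adjugate 0)).updateRow
    (Fin.last _) (M.adjugate (Fin.last _))) with hC
  have h0 : (0 : Fin (n + 2)) ≠ Fin.last (n + 1) := (Fin.last_pos).ne
  have h1 : C * M = ((M.updateRow 0 (M.det • Pi.single 0 1)).updateRow (Fin.last _)
      (M.det • Pi.single (Fin.last _) 1)) := by
    have hadj : ∀ i j, ∑ x, M.adjugate i x * M x j = M.det * (1 : Matrix (Fin (n+2)) (Fin (n+2)) R) i j := by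
      intro i j
      have := congrFun (congrFun (Matrix.adjugate_mul M) i) j
      rw [Matrix.mul_apply] at this
      rw [this]; simp
    ext i j
    rw [Matrix.mul_apply]
    by_cases hi : i = Fin.last _
    · subst hi
      rw [Matrix.updateRow_self]
      have : ∀ x, C (Fin.last _) x = M.adjugate (Fin.last _) x := by
        intro x; rw [hC, Matrix.updateRow_self]
      simp only [this]
      rw [hadj]
      simp [Matrix.one_apply, Pi.single_apply, eq_comm]
    · rw [Matrix.updateRow_ne hi]
      by_cases hi0 : i = 0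
      · subst hi0
        rw [Matrix.updateRow_self]
        have : ∀ x, C 0 x = M.adjugate 0 x := by
          intro x; rw [hC, Matrix.updateRow_ne h0, Matrix.updateRow_self]
        simp only [this]
        rw [hadj]
        simp [Matrix.one_apply, Pi.single_apply, eq_comm]
      · rw [Matrix.updateRow_ne hi0]
        have : ∀ x, C i x = (1 : Matrix (Fin (n+2)) (Fin (n+2)) R) i x := by
          intro x; rw [hC, Matrix.updateRow_ne hi, Matrix.updateRow_ne hi0]
        simp only [this]
        simp [Matrix.one_apply]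
  have h2 : C.det * M.det = M.det * (M.det *
      (M.submatrix (fun i : Fin n => i.succ.castSucc) (fun i : Fin n => i.succ.castSucc)).det) := by
    rw [← Matrix.det_mul, h1, Matrix.det_updateRow_smul, Matrix.updateRow_comm _ h0,
      Matrix.det_updateRow_smul, ← Matrix.updateRow_comm _ h0, det_update_two]
  have h3 : C.det = (M.submatrix Fin.succ Fin.succ).det * (M.submatrix Fin.castSucc Fin.castSucc).det -
      (M.submatrix Fin.succ Fin.castSucc).det * (M.submatrix Fin.castSucc Fin.succ).det := by
    rw [hC, det_one_update_two]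
    simp only [Matrix.adjugate_fin_succ_eq_det_submatrix]
    have hs : ((-1 : R) ^ ((Fin.last (n + 1) : Fin (n + 2)) + (Fin.last (n + 1) : Fin (n + 2)) : ℕ)) = 1 :=
      Even.neg_one_pow ⟨_, rfl⟩
    rw [hs]
    simp only [Fin.val_zero, add_zero, zero_add, pow_zero, one_mul, Fin.succAbove_zero,
      Fin.succAbove_last]
    have hs2 : ((-1 : R) ^ ((Fin.last (n + 1) : Fin (n + 2)) : ℕ)) *
        ((-1 : R) ^ ((Fin.last (n + 1) : Fin (n + 2)) : ℕ)) = 1 := by
      rw [← pow_add]; exact Even.neg_one_pow ⟨_, rfl⟩
    calc _ = (M.submatrix Fin.succ Fin.succ).det * (M.submatrix Fin.castSucc Fin.castSucc).det -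
      (((-1 : R) ^ ((Fin.last (n + 1) : Fin (n + 2)) : ℕ)) *
        ((-1 : R) ^ ((Fin.last (n + 1) : Fin (n + 2)) : ℕ))) *
        ((M.submatrix Fin.succ Fin.castSucc).det * (M.submatrix Fin.castSucc Fin.succ).det) := by
          ring
      _ = _ := by rw [hs2, one_mul]
  rw [h3, mul_comm] at h2
  exact (mul_left_cancel₀ hM h2).symm

end OkamotoTP
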