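import Pool.Agent.H95.Okamoto.Sub

/-! # Interlacing: `det (1 + s B)` has simple negative roots for strictly totally positive `B` -/

namespace OkamotoTP

open Matrix Finset Polynomial

theorem hf_continuous {n : ℕ} (B : Matrix (Fin n) (Fin n) ℝ) : Continuous (hf B) := by
  unfold hf
  exact Continuous.matrix_det (by fun_prop)

theorem hf_far {n : ℕ} (B : Matrix (Fin n) (Fin n) ℝ) (hB : SP B) (K : ℝ) :
    ∃ s, s < K ∧ s < 0 ∧ 0 < (-1 : ℝ) ^ n * hf B s := by
  have hc : Continuous (fun t : ℝ => (t • (1 : Matrix (Fin n) (Fin n) ℝ) + B).det) :=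
    Continuous.matrix_det (by fun_prop)
  have h0 : 0 < (fun t : ℝ => (t • (1 : Matrix (Fin n) (Fin n) ℝ) + B).det) 0 := by
    simpa using hB.det_pos
  have hev := (hc.tendsto 0).eventually (lt_mem_nhds h0)
  rw [Metric.eventually_nhds_iff] at hev
  obtain ⟨δ, hδ, hev⟩ := hev
  set s : ℝ := min (K - 1) (-(2 / δ)) with hs
  have hs1 : s < K := lt_of_le_of_lt (min_le_left _ _) (by linarith)
  have hs2 : s ≤ -(2 / δ) := min_le_right _ _
  have hpos : 0 < 2 / δ := by positivity
  have hs3 : s < 0 := by linarith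
  refine ⟨s, hs1, hs3, ?_⟩
  have h1 : 0 < (s⁻¹ • (1 : Matrix (Fin n) (Fin n) ℝ) + B).det := by
    apply hev
    rw [dist_zero_right, Real.norm_eq_abs, abs_inv, abs_of_neg hs3]
    rw [inv_lt_comm₀ (by linarith) hδ]
    have : δ⁻¹ = (2 / δ) / 2 := by field_simp
    rw [this]; linarith
  have h2 : hf B s = s ^ n * (s⁻¹ • (1 : Matrix (Fin n) (Fin n) ℝ) + B).det := by
    unfold hf
    have : (1 + s • B) = s • (s⁻¹ • (1 : Matrix (Fin n) (Fin n) ℝ) + B) := by
      rw [smul_add, smul_smul, mul_inv_cancel₀ hs3.ne, one_smul]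
    rw [this, Matrix.det_smul, Fintype.card_fin]
  rw [h2, ← mul_assoc, ← mul_pow]
  have : 0 < (-1 * s) := by linarith
  positivity

/-- Intermediate values between points of alternating sign. -/
theorem exists_roots {h : ℝ → ℝ} (hc : Continuous h) {M : ℕ} (z : Fin (M + 1) → ℝ)
    (hz : StrictAnti z) (hs : ∀ j : Fin (M + 1), 0 < (-1 : ℝ) ^ (j : ℕ) * h (z j)) :
    ∃ y : Fin M → ℝ, ∀ j, h (y j) = 0 ∧ z j.succ < y j ∧ y j < z j.castSucc := by
  have : ∀ j : Fin M, ∃ y, h y = 0 ∧ z j.succ < y ∧ y < z j.castSucc := by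
    intro j
    have hlt : z j.succ < z j.castSucc := hz (Fin.castSucc_lt_succ)
    have h1 := hs j.succ
    have h2 := hs j.castSucc
    simp only [Fin.val_succ, Fin.val_castSucc, pow_succ] at h1 h2
    rcases Nat.even_or_odd (j : ℕ) with he | ho
    · rw [he.neg_one_pow] at h1 h2
      have hmem : (0 : ℝ) ∈ Set.Ioo (h (z j.succ)) (h (z j.castSucc)) :=
        ⟨by linarith, by linarith⟩
      obtain ⟨y, hy, hy0⟩ := intermediate_value_Ioo hlt.le hc.continuousOn hmem
      exact ⟨y, hy0, hy.1, hy.2⟩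
    · rw [ho.neg_one_pow] at h1 h2
      have hmem : (0 : ℝ) ∈ Set.Ioo (h (z j.castSucc)) (h (z j.succ)) :=
        ⟨by linarith, by linarith⟩
      obtain ⟨y, hy, hy0⟩ := intermediate_value_Ioo' hlt.le hc.continuousOn hmem
      exact ⟨y, hy0, hy.1, hy.2⟩
  choose y hy using this
  exact ⟨y, hy⟩

theorem strictAnti_of_between {M : ℕ} {z : Fin (M + 1) → ℝ} (hz : StrictAnti z)
    {y : Fin M → ℝ} (hy : ∀ j, z j.succ < y j ∧ y j < z j.castSucc) : StrictAnti y := by
  intro i j hij
  have h1 : z j.castSucc ≤ z i.succ := hz.antitone (by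
    rw [Fin.le_def]; simp; exact hij)
  linarith [(hy i).1, (hy j).2]

/-- Product formula. -/
theorem hf_eq_prod {n : ℕ} (B : Matrix (Fin n) (Fin n) ℝ) (x : Fin n → ℝ)
    (hx : Function.Injective x) (hx0 : ∀ j, x j ≠ 0) (hr : ∀ j, hf B (x j) = 0) (s : ℝ) :
    hf B s = ∏ j, (1 - s / x j) := by
  classical
  set g : ℝ[X] := ∏ j, (1 - C (x j)⁻¹ * X) with hg
  have hgdeg : g.natDegree ≤ n := by
    have := Polynomial.natDegree_prod_le (Finset.univ : Finset (Fin n)) (fun j => (1 - C (x j)⁻¹ * X : ℝ[X]))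
    refine le_trans this ?_
    calc ∑ i : Fin n, (1 - C (x i)⁻¹ * X : ℝ[X]).natDegree ≤ ∑ _i : Fin n, 1 := by
          refine Finset.sum_le_sum fun i _ => ?_
          compute_degree
      _ = n := by simp
  have hgev : ∀ t, g.eval t = ∏ j, (1 - t / x j) := by
    intro t
    rw [hg, Polynomial.eval_prod]
    refine Finset.prod_congr rfl fun j _ => ?_
    simp [div_eq_inv_mul]
  have heq : hp B = g := by
    by_contra hne
    have hsub : hp B - g ≠ 0 := sub_ne_zero.mpr hne
    have hcard : (insert (0 : ℝ) (Finset.univ.image x)).card ≤ (hp B - g).natDegree := by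
      refine le_trans (Finset.card_le_card (t := (hp B - g).roots.toFinset) ?_) ?_
      · intro a ha
        rw [Multiset.mem_toFinset, Polynomial.mem_roots hsub, Polynomial.IsRoot.def,
          Polynomial.eval_sub, hp_eval, hgev]
        rw [Finset.mem_insert, Finset.mem_image] at ha
        rcases ha with rfl | ⟨j, _, rfl⟩
        · rw [hf_zero]; simp
        · rw [hr j, Finset.prod_eq_zero (Finset.mem_univ j), sub_zero]
          rw [div_self (hx0 j), sub_self]
      · exact le_trans (Multiset.toFinset_card_le _) (Polynomial.card_roots' _)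
    rw [Finset.card_insert_of_notMem, Finset.card_image_of_injective _ hx, Finset.card_univ,
      Fintype.card_fin] at hcard
    · have := Polynomial.natDegree_sub_le_of_le (hp_natDegree B) hgdeg
      simp at this
      omega
    · intro h
      rw [Finset.mem_image] at h
      obtain ⟨j, _, hj⟩ := h
      exact hx0 j hj
  rw [← hp_eval, heq, hgev]

theorem prod_sign {n : ℕ} (x : Fin n → ℝ) (hx : ∀ j, x j < 0) (s : ℝ) (k : ℕ) (hk : k ≤ n)
    (h1 : ∀ j : Fin n, (j : ℕ) < k → s < x j) (h2 : ∀ j : Fin n, k ≤ (j : ℕ) → x j < s) :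
    0 < (-1 : ℝ) ^ k * ∏ j, (1 - s / x j) := by
  have e : (-1 : ℝ) ^ k = ∏ j : Fin n, (if (j : ℕ) < k then (-1 : ℝ) else 1) := by
    rw [Finset.prod_ite, Finset.prod_const, Finset.prod_const_one, mul_one]
    congr 1
    rw [Fin.card_filter_val_lt, min_eq_right hk]
  rw [e, ← Finset.prod_mul_distrib]
  refine Finset.prod_pos fun j _ => ?_
  split_ifs with h
  · have : 1 < s / x j := (one_lt_div_of_neg (hx j)).mpr (h1 j h)
    linarith
  · have : s / x j < 1 := by
      rw [div_lt_one_of_neg (hx j)]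
      exact h2 j (not_lt.mp h)
    linarith

/-- all roots of `hf B` are among `y`. -/
theorem range_eq {n : ℕ} (B : Matrix (Fin n) (Fin n) ℝ) (y : Fin n → ℝ)
    (hy : Function.Injective y) (hr : ∀ j, hf B (y j) = 0) :
    Finset.univ.image y = (hp B).roots.toFinset := by
  classical
  refine Finset.eq_of_subset_of_card_le ?_ ?_
  · intro a ha
    rw [Finset.mem_image] at ha
    obtain ⟨j, _, rfl⟩ := ha
    rw [Multiset.mem_toFinset, Polynomial.mem_roots (hp_ne_zero B), Polynomial.IsRoot.def, hp_eval]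
    exact hr j
  · rw [Finset.card_image_of_injective _ hy, Finset.card_univ, Fintype.card_fin]
    exact le_trans (Multiset.toFinset_card_le _) (le_trans (Polynomial.card_roots' _) (hp_natDegree B))

theorem anti_unique {n : ℕ} (B : Matrix (Fin n) (Fin n) ℝ) (y y' : Fin n → ℝ)
    (hy : StrictAnti y) (hy' : StrictAnti y') (hr : ∀ j, hf B (y j) = 0)
    (hr' : ∀ j, hf B (y' j) = 0) : y = y' := by
  classical
  have h1 := range_eq B y hy.injective hr
  have h2 := range_eq B y' hy'.injective hr'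
  have h3 : Finset.univ.image y = Finset.univ.image y' := h1.trans h2.symm
  have h4 : Set.range (fun j => -y j) = Set.range (fun j => -y' j) := by
    ext a
    constructor
    · rintro ⟨j, rfl⟩
      have : y j ∈ Finset.univ.image y' := h3 ▸ Finset.mem_image_of_mem _ (Finset.mem_univ j)
      rw [Finset.mem_image] at this
      obtain ⟨i, _, hi⟩ := this
      exact ⟨i, by simp [hi]⟩
    · rintro ⟨j, rfl⟩
      have : y' j ∈ Finset.univ.image y := h3 ▸ Finset.mem_image_of_mem _ (Finset.mem_univ j)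
      rw [Finset.mem_image] at this
      obtain ⟨i, _, hi⟩ := this
      exact ⟨i, by simp [hi]⟩
  have m1 : StrictMono (fun j => -y j) := fun i j hij => neg_lt_neg (hy hij)
  have m2 : StrictMono (fun j => -y' j) := fun i j hij => neg_lt_neg (hy' hij)
  have h5 := (StrictMono.range_inj m1 m2).mp h4
  funext j
  have := congrFun h5 j
  simpa using this

/-- From roots `x` of a neighbour at which the inner function alternates, roots of `hf B`. -/
theorem step_roots {n : ℕ} (B : Matrix (Fin (n + 2)) (Fin (n + 2)) ℝ) (hB : SP B)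
    (x : Fin (n + 1) → ℝ) (hx : StrictAnti x) (hx0 : ∀ k, x k < 0)
    (hprod : ∀ k, hf (B.submatrix Fin.succ Fin.succ) (x k) *
      hf (B.submatrix Fin.castSucc Fin.castSucc) (x k) = 0)
    (hI : ∀ k : Fin (n + 1), 0 < (-1 : ℝ) ^ (k : ℕ) *
      hf (B.submatrix (fun i : Fin n => i.succ.castSucc) (fun i : Fin n => i.succ.castSucc)) (x k)) :
    ∃ y : Fin (n + 2) → ℝ, StrictAnti y ∧ (∀ k, y k < 0) ∧ (∀ k, hf B (y k) = 0) ∧
      (∀ (j : Fin (n + 1)) (k : Fin (n + 2)), (j : ℕ) < k → y k < x j) ∧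
      (∀ (j : Fin (n + 1)) (k : Fin (n + 2)), (k : ℕ) ≤ j → x j < y k) := by
  obtain ⟨s, hs1, hs2, hs3⟩ := hf_far B hB (x (Fin.last n))
  set z : Fin (n + 3) → ℝ := Fin.cons 0 (Fin.snoc (α := fun _ => ℝ) x s) with hzdef
  have hz0 : z 0 = 0 := rfl
  have hzs : ∀ k : Fin (n + 1), z k.castSucc.succ = x k := by
    intro k; simp [hzdef]
  have hzl : z (Fin.last (n + 1)).succ = s := by
    simp [hzdef]
  have hxs : ∀ k, s < x k := fun k => lt_of_lt_of_le hs1 (hx.antitone (Fin.le_last k))
  have hz : StrictAnti z := by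
    rw [Fin.strictAnti_iff_succ_lt]
    intro i
    refine Fin.cases ?_ (fun i => ?_) i
    · have : (Fin.succ (0 : Fin (n + 2))) = (Fin.castSucc (0 : Fin (n + 1))).succ := rfl
      rw [this, hzs]
      exact hx0 0
    · rw [← Fin.succ_castSucc, hzs]
      refine Fin.lastCases ?_ (fun i => ?_) i
      · rw [Fin.succ_last, hzl]; exact hs1
      · rw [Fin.succ_castSucc, hzs]
        exact hx (Fin.castSucc_lt_succ)
  have hsign : ∀ j : Fin (n + 3), 0 < (-1 : ℝ) ^ (j : ℕ) * hf B (z j) := by
    intro j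
    refine Fin.cases ?_ (fun i => ?_) j
    · rw [hz0, hf_zero]; simp
    · refine Fin.lastCases ?_ (fun i => ?_) i
      · rw [hzl]; simpa using hs3
      · rw [hzs]
        have hdj := hf_dj B (x i)
        rw [hprod i, zero_sub] at hdj
        have hsx : 0 < -x i := by linarith [hx0 i]
        have c1 := corner_pos B hB hsx
        have c2 := corner_pos' B hB hsx
        have e : (1 - (-x i) • B) = 1 + x i • B := by
          rw [neg_smul, sub_neg_eq_add]
        rw [e] at c1 c2
        have c3 := mul_pos c2 c1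
        have hsq : ((-1 : ℝ) ^ (n + 1)) * ((-1 : ℝ) ^ (n + 1)) = 1 := by
          rw [← pow_add]; exact Even.neg_one_pow ⟨_, rfl⟩
        have c4 : 0 < ((1 + x i • B).submatrix Fin.succ Fin.castSucc).det *
            ((1 + x i • B).submatrix Fin.castSucc Fin.succ).det := by
          calc (0 : ℝ) < _ := c3
            _ = (((-1 : ℝ) ^ (n + 1)) * ((-1 : ℝ) ^ (n + 1))) *
              (((1 + x i • B).submatrix Fin.succ Fin.castSucc).det *
            ((1 + x i • B).submatrix Fin.castSucc Fin.succ).det) := by ring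
            _ = _ := by rw [hsq, one_mul]
        have hi := hI i
        simp only [Fin.val_succ, Fin.val_castSucc, pow_succ]
        rcases Nat.even_or_odd (i : ℕ) with he | ho
        · rw [he.neg_one_pow] at hi ⊢
          rw [one_mul] at hi
          nlinarith
        · rw [ho.neg_one_pow] at hi ⊢
          nlinarith
  obtain ⟨y, hy⟩ := exists_roots (hf_continuous B) z hz hsign
  have hyanti := strictAnti_of_between hz (fun j => (hy j).2)
  refine ⟨y, hyanti, ?_, fun k => (hy k).1, ?_, ?_⟩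
  · intro k
    have h1 := (hy k).2.2
    have h2 : z k.castSucc ≤ z 0 := hz.antitone (Fin.zero_le _)
    rw [hz0] at h2
    linarith
  · intro j k hjk
    have h1 := (hy k).2.2
    have h2 : z k.castSucc ≤ z j.castSucc.succ := hz.antitone (by
      rw [Fin.le_def]; simp; omega)
    rw [hzs] at h2
    linarith
  · intro j k hjk
    have h1 := (hy k).2.1
    have h2 : z j.castSucc.succ ≤ z k.succ := hz.antitone (by
      rw [Fin.le_def]; simp; omega)
    rw [hzs] at h2
    linarith

theorem interlace : ∀ (n : ℕ) (B : Matrix (Fin (n + 1)) (Fin (n + 1)) ℝ), SP B →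
    ∃ y : Fin (n + 1) → ℝ, StrictAnti y ∧ (∀ k, y k < 0) ∧ (∀ k, hf B (y k) = 0) ∧
      (∀ k : Fin (n + 1), 0 < (-1 : ℝ) ^ (k : ℕ) * hf (B.submatrix Fin.castSucc Fin.castSucc) (y k)) ∧
      (∀ k : Fin (n + 1), 0 < (-1 : ℝ) ^ (k : ℕ) * hf (B.submatrix Fin.succ Fin.succ) (y k)) := by
  intro n
  induction n with
  | zero =>
    intro B hB
    have hb := hB.entry 0 0
    refine ⟨fun _ => -1 / B 0 0, ?_, ?_, ?_, ?_, ?_⟩
    · intro i j hij
      exfalso
      have := i.2; have := j.2
      rw [Fin.lt_def] at hij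
      omega
    · intro k; exact div_neg_of_neg_of_pos (by norm_num) hb
    · intro k
      show (1 + (-1 / B 0 0) • B : Matrix (Fin 1) (Fin 1) ℝ).det = 0
      rw [Matrix.det_fin_one, Matrix.add_apply, Matrix.one_apply_eq, Matrix.smul_apply,
        smul_eq_mul]
      field_simp
      norm_num
    · intro k
      simp [hf]
    · intro k
      simp [hf]
  | succ n ih =>
    intro B hB
    have hL : SP (B.submatrix Fin.castSucc Fin.castSucc) :=
      hB.submatrix (Fin.castSuccOrderEmb) (Fin.castSuccOrderEmb)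
    have hR : SP (B.submatrix Fin.succ Fin.succ) :=
      hB.submatrix (Fin.succOrderEmb _) (Fin.succOrderEmb _)
    obtain ⟨x, hx, hx0, hxr, _, hxI⟩ := ih _ hL
    obtain ⟨x', hx', hx0', hxr', hxI', _⟩ := ih _ hR
    have eI : (B.submatrix Fin.castSucc Fin.castSucc).submatrix Fin.succ Fin.succ =
        (B.submatrix (fun i : Fin n => i.succ.castSucc) (fun i : Fin n => i.succ.castSucc)) := rfl
    have eI' : (B.submatrix Fin.succ Fin.succ).submatrix Fin.castSucc Fin.castSucc =
        (B.submatrix (fun i : Fin n => i.succ.castSucc) (fun i : Fin n => i.succ.castSucc)) := by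
      rfl
    rw [eI] at hxI
    rw [eI'] at hxI'
    obtain ⟨y, hy, hy0, hyr, hy1, hy2⟩ := step_roots B hB x hx hx0
      (fun k => by rw [hxr k, mul_zero]) hxI
    obtain ⟨y', hy', hy0', hyr', hy1', hy2'⟩ := step_roots B hB x' hx' hx0'
      (fun k => by rw [hxr' k, zero_mul]) hxI'
    have hyy : y = y' := anti_unique B y y' hy hy' hyr hyr'
    subst hyy
    refine ⟨y, hy, hy0, hyr, ?_, ?_⟩
    · intro k
      rw [hf_eq_prod _ x hx.injective (fun j => (hx0 j).ne) hxr]
      exact prod_sign x hx0 (y k) k (by have := k.2; omega) (fun j hj => hy1 j k hj)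
        (fun j hj => hy2 j k hj)
    · intro k
      rw [hf_eq_prod _ x' hx'.injective (fun j => (hx0' j).ne) hxr']
      exact prod_sign x' hx0' (y k) k (by have := k.2; omega) (fun j hj => hy1' j k hj)
        (fun j hj => hy2' j k hj)

/-- `det (1 + s B)` has `n` distinct negative roots. -/
theorem exists_neg_roots {n : ℕ} (B : Matrix (Fin n) (Fin n) ℝ) (hB : SP B) :
    ∃ y : Fin n → ℝ, StrictAnti y ∧ (∀ k, y k < 0) ∧ (∀ k, hf B (y k) = 0) := by
  cases n with
  | zero => exact ⟨fun k => k.elim0, fun i => i.elim0, fun i => i.elim0, fun i => i.elim0⟩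
  | succ n =>
    obtain ⟨y, h1, h2, h3, _, _⟩ := interlace n B hB
    exact ⟨y, h1, h2, h3⟩

end OkamotoTP
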