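import Pool.Agent.H95.Okamoto.Simple
import Pool.Agent.H95.Okamoto.Cauchy

/-! # Linking the Okamoto determinants with a Cauchy-type matrix -/

namespace OkamotoTP

open Matrix Finset Polynomial

theorem hp_ext {n n' : ℕ} (A : Matrix (Fin n) (Fin n) ℝ) (A' : Matrix (Fin n') (Fin n') ℝ)
    (h : ∀ s, hf A s = hf A' s) : hp A = hp A' := by
  apply Polynomial.funext
  intro s
  rw [hp_eval, hp_eval, h s]

theorem hf_submatrix {n N : ℕ} (A : Matrix (Fin N) (Fin N) ℝ) (e : Fin n → Fin N)
    (he : Function.Injective e) (hA : ∀ i, (∀ a, e a ≠ i) → ∀ j, A i j = 0) (s : ℝ) :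
    hf A s = hf (A.submatrix e e) s := by
  classical
  set E : Matrix (Fin N) (Fin n) ℝ := Matrix.of fun i a => if i = e a then 1 else 0 with hE
  set R : Matrix (Fin n) (Fin N) ℝ := A.submatrix e id with hR
  have h1 : (s • A) = (s • E) * R := by
    rw [Matrix.smul_mul]
    congr 1
    ext i j
    rw [Matrix.mul_apply]
    by_cases h : ∃ a, e a = i
    · obtain ⟨a, rfl⟩ := h
      rw [Finset.sum_eq_single a]
      · simp [hE, hR]
      · intro b _ hb
        have : (e a : Fin N) ≠ e b := fun h => hb (he h).symm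
        simp [hE, this]
      · intro h; exact absurd (Finset.mem_univ _) h
    · push Not at h
      rw [hA i h j]
      symm
      apply Finset.sum_eq_zero
      intro b _
      simp [hE, (h b).symm]
  have h2 : (s • (A.submatrix e e)) = R * (s • E) := by
    rw [Matrix.mul_smul]
    congr 1
    ext i j
    rw [Matrix.mul_apply, Finset.sum_eq_single (e j)]
    · simp [hE, hR]
    · intro b _ hb
      simp [hE, hb]
    · intro h; exact absurd (Finset.mem_univ _) h
  unfold hf
  rw [h1, h2, Matrix.det_one_add_mul_comm]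

theorem hf_conj {n : ℕ} (K : Matrix (Fin n) (Fin n) ℝ) (d w : Fin n → ℝ) (s : ℝ) :
    hf (Matrix.of fun i j => d i * K i j * w j) s =
      hf (Matrix.of fun i j => (w i * d i) * K i j) s := by
  have h1 : (s • (Matrix.of fun i j => d i * K i j * w j : Matrix (Fin n) (Fin n) ℝ)) =
      (s • (Matrix.of fun i j => d i * K i j : Matrix (Fin n) (Fin n) ℝ)) * Matrix.diagonal w := by
    rw [Matrix.smul_mul]
    congr 1
    ext i j
    rw [Matrix.mul_diagonal]
    rfl
  have h2 : (s • (Matrix.of fun i j => (w i * d i) * K i j : Matrix (Fin n) (Fin n) ℝ)) =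
      Matrix.diagonal w * (s • (Matrix.of fun i j => d i * K i j : Matrix (Fin n) (Fin n) ℝ)) := by
    rw [Matrix.mul_smul]
    congr 1
    ext i j
    rw [Matrix.diagonal_mul]
    simp only [Matrix.of_apply]
    ring
  unfold hf
  rw [h1, h2, Matrix.det_one_add_mul_comm]

end OkamotoTP
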