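import Pool.Agent.H95.Okamoto.Link

namespace OkamotoTP

open Matrix Finset Polynomial

theorem card_window {N : ℕ} (i : Fin N) (a : ℕ) (ha : a ≤ i) :
    ((Finset.univ.erase i).filter (fun l : Fin N => (i : ℕ) ≤ l + a ∧ (l : ℕ) < i)).card = a := by
  classical
  have h : (((Finset.univ.erase i).filter (fun l : Fin N => (i : ℕ) ≤ l + a ∧ (l : ℕ) < i)).image
      (fun l : Fin N => (l : ℕ))) = Finset.Ico ((i : ℕ) - a) i := by
    ext x
    simp only [Finset.mem_image, Finset.mem_filter, Finset.mem_erase, Finset.mem_univ,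
      Finset.mem_Ico, and_true]
    constructor
    · rintro ⟨l, ⟨_, h1, h2⟩, rfl⟩
      omega
    · rintro ⟨h1, h2⟩
      have := i.2
      refine ⟨⟨x, by omega⟩, ⟨?_, ?_, ?_⟩, rfl⟩
      · intro h
        rw [Fin.ext_iff] at h
        simp at h
        omega
      · simp; omega
      · exact h2
  rw [← Finset.card_image_of_injective _ Fin.val_injective, h, Nat.card_Ico]
  omega

theorem window_sign {N : ℕ} (m : ℕ) (hm3 : ¬ 3 ∣ m) (i : Fin N) (ha : m / 3 ≤ (i : ℕ)) :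
    0 < (-1 : ℝ) ^ (m / 3) * ∏ l ∈ Finset.univ.erase i,
      ((3 * ((i : ℕ) : ℝ) - 3 * ((l : ℕ) : ℝ) - m) / (3 * ((i : ℕ) : ℝ) - 3 * ((l : ℕ) : ℝ))) := by
  classical
  have e : (-1 : ℝ) ^ (m / 3) = ∏ l ∈ Finset.univ.erase i,
      (if ((i : ℕ) ≤ l + m / 3 ∧ (l : ℕ) < i) then (-1 : ℝ) else 1) := by
    rw [Finset.prod_ite, Finset.prod_const, Finset.prod_const_one, mul_one, card_window i _ ha]
  rw [e, ← Finset.prod_mul_distrib]
  refine Finset.prod_pos fun l hl => ?_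
  have hne : (l : ℕ) ≠ i := fun h => (Finset.mem_erase.mp hl).1 (Fin.ext h)
  have hm : m = 3 * (m / 3) + m % 3 := by omega
  have hm1 : 1 ≤ m % 3 := by omega
  have hm2 : m % 3 < 3 := Nat.mod_lt _ (by norm_num)
  rcases lt_or_gt_of_ne hne with h | h
  · by_cases h2 : (i : ℕ) ≤ l + m / 3
    · rw [if_pos ⟨h2, h⟩]
      have p1 : (0 : ℝ) < 3 * ((i : ℕ) : ℝ) - 3 * ((l : ℕ) : ℝ) := by
        have : ((l : ℕ) : ℝ) < ((i : ℕ) : ℝ) := by exact_mod_cast h
        linarith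
      have p2 : 3 * ((i : ℕ) : ℝ) - 3 * ((l : ℕ) : ℝ) - m < 0 := by
        have h3 : 3 * (i : ℕ) < 3 * l + m := by omega
        have : (3 * ((i : ℕ) : ℝ)) < 3 * ((l : ℕ) : ℝ) + m := by exact_mod_cast h3
        linarith
      have := div_neg_of_neg_of_pos p2 p1
      linarith
    · rw [if_neg (fun h3 => h2 h3.1), one_mul]
      have h3 : 3 * l + m < 3 * (i : ℕ) := by omega
      have : 3 * ((l : ℕ) : ℝ) + m < (3 * ((i : ℕ) : ℝ)) := by exact_mod_cast h3
      have hm0 : (0 : ℝ) ≤ m := Nat.cast_nonneg m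
      apply div_pos <;> linarith
  · rw [if_neg (fun h3 => by omega), one_mul]
    have : ((i : ℕ) : ℝ) < ((l : ℕ) : ℝ) := by exact_mod_cast h
    have hm0 : (0 : ℝ) ≤ m := Nat.cast_nonneg m
    apply div_pos_of_neg_of_neg <;> linarith

/-- The nodes. -/
noncomputable def nd (r : ℕ) {N : ℕ} (i : Fin N) : ℝ := 3 * ((i : ℕ) : ℝ) + r

theorem nd_inj (r : ℕ) {N : ℕ} : Function.Injective (nd r : Fin N → ℝ) := by
  intro i j h
  unfold nd at h
  apply Fin.ext
  have : ((i : ℕ) : ℝ) = ((j : ℕ) : ℝ) := by linarith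
  exact_mod_cast this

/-- The matrix `D L`. -/
noncomputable def AM (r m N : ℕ) : Matrix (Fin N) (Fin N) ℝ :=
  Matrix.of fun i j => ((3 * (i : ℕ) + r).descFactorial m : ℝ) *
    (Lagrange.basis Finset.univ (nd r) j).eval (nd r i - m)

theorem basis_eval {r N : ℕ} (j : Fin N) (x : ℝ) :
    (Lagrange.basis Finset.univ (nd r) j).eval x =
      ∏ l ∈ Finset.univ.erase j, ((nd r j - nd r l)⁻¹ * (x - nd r l)) := by
  rw [Lagrange.basis, Polynomial.eval_prod]
  refine Finset.prod_congr rfl fun l _ => ?_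
  simp [Lagrange.basisDivisor]

/-- weights -/
noncomputable def wt (r : ℕ) {N : ℕ} (j : Fin N) : ℝ := ∏ l ∈ Finset.univ.erase j, (nd r j - nd r l)⁻¹

theorem AM_eq {r m N : ℕ} (hm3 : ¬ 3 ∣ m) (i j : Fin N) :
    AM r m N i j = (-(((3 * (i : ℕ) + r).descFactorial m : ℝ) * ∏ l : Fin N, (nd r i - m - nd r l))) *
      (1 / ((m - nd r i) + nd r j)) * wt r j := by
  have hne : nd r i - m - nd r j ≠ 0 := by
    intro h
    unfold nd at h
    have h2 : 3 * ((i : ℕ) : ℝ) = m + 3 * ((j : ℕ) : ℝ) := by linarith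
    have h3 : 3 * (i : ℕ) = m + 3 * (j : ℕ) := by exact_mod_cast h2
    exact hm3 (by omega)
  have hne2 : (m : ℝ) - nd r i + nd r j ≠ 0 := by
    intro h; apply hne; linarith
  rw [AM, Matrix.of_apply, basis_eval, Finset.prod_mul_distrib,
    ← Finset.mul_prod_erase Finset.univ (fun l => nd r i - m - nd r l) (Finset.mem_univ j)]
  unfold wt
  field_simp
  ring

theorem diag_sign {r m N : ℕ} (hm3 : ¬ 3 ∣ m) (hr1 : 1 ≤ r) (hr2 : r ≤ 2) (i : Fin N)
    (hi : m ≤ 3 * (i : ℕ) + r) :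
    0 < (-1 : ℝ) ^ (m / 3) * (wt r i *
      (-(((3 * (i : ℕ) + r).descFactorial m : ℝ) * ∏ l : Fin N, (nd r i - m - nd r l)))) := by
  have ha : m / 3 ≤ (i : ℕ) := by omega
  have h := window_sign m hm3 i ha
  have hmpos : (0 : ℝ) < m := by
    have : 0 < m := by
      rcases Nat.eq_zero_or_pos m with h | h
      · subst h; exact absurd (dvd_zero 3) hm3
      · exact h
    exact_mod_cast this
  have hD : (0 : ℝ) < ((3 * (i : ℕ) + r).descFactorial m : ℝ) := by
    have : 0 < (3 * (i : ℕ) + r).descFactorial m := Nat.descFactorial_pos.mpr hi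
    exact_mod_cast this
  have e : wt r i * (-(((3 * (i : ℕ) + r).descFactorial m : ℝ) *
      ∏ l : Fin N, (nd r i - m - nd r l))) =
      ((3 * (i : ℕ) + r).descFactorial m : ℝ) * m * ∏ l ∈ Finset.univ.erase i,
      ((3 * ((i : ℕ) : ℝ) - 3 * ((l : ℕ) : ℝ) - m) / (3 * ((i : ℕ) : ℝ) - 3 * ((l : ℕ) : ℝ))) := by
    rw [← Finset.mul_prod_erase Finset.univ (fun l => nd r i - m - nd r l) (Finset.mem_univ i)]
    have e2 : (∏ l ∈ Finset.univ.erase i,
      ((3 * ((i : ℕ) : ℝ) - 3 * ((l : ℕ) : ℝ) - m) / (3 * ((i : ℕ) : ℝ) - 3 * ((l : ℕ) : ℝ)))) =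
        wt r i * ∏ l ∈ Finset.univ.erase i, (nd r i - m - nd r l) := by
      unfold wt
      rw [← Finset.prod_mul_distrib]
      refine Finset.prod_congr rfl fun l _ => ?_
      unfold nd
      rw [div_eq_inv_mul]
      congr 1
      · congr 1; ring
      · ring
    rw [e2]
    ring
  rw [e]
  have := mul_pos (mul_pos hD hmpos) h
  calc (0 : ℝ) < _ := this
    _ = _ := by ring

/-- The matrix on the active rows. -/
noncomputable def AJ (r m N : ℕ) {n : ℕ} (e : Fin n ↪o Fin N) : Matrix (Fin n) (Fin n) ℝ :=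
  Matrix.of fun i j => (wt r (e i) *
      (-(((3 * (e i : ℕ) + r).descFactorial m : ℝ) * ∏ l : Fin N, (nd r (e i) - m - nd r l)))) *
      (Matrix.of (fun i j : Fin n => 1 / (((m : ℝ) - nd r (e i)) + nd r (e j)))) i j

theorem AJ_minor {r m N : ℕ} (hm3 : ¬ 3 ∣ m) (hr1 : 1 ≤ r) (hr2 : r ≤ 2) {n : ℕ}
    (e : Fin n ↪o Fin N) (he : ∀ a, m ≤ 3 * (e a : ℕ) + r) (he2 : ∀ a, 3 * (e a : ℕ) + r < 2 * m)
    (k : ℕ) (rr cc : Fin k ↪o Fin n) :
    0 < ((-1 : ℝ) ^ (∑ i ∈ Finset.range k, i) * ((-1 : ℝ) ^ (m / 3)) ^ k) *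
      ((AJ r m N e).submatrix rr cc).det := by
  have e1 : (AJ r m N e).submatrix rr cc = Matrix.of fun i j =>
      (wt r (e (rr i)) * (-(((3 * (e (rr i) : ℕ) + r).descFactorial m : ℝ) *
        ∏ l : Fin N, (nd r (e (rr i)) - m - nd r l)))) *
      (Matrix.of (fun i j : Fin k => 1 / (((m : ℝ) - nd r (e (rr i))) + nd r (e (cc j))))) i j := by
    ext i j
    simp [AJ]
  rw [e1, Matrix.det_mul_column]
  have hmono : ∀ i j : Fin n, i < j → nd r (e i) < nd r (e j) := by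
    intro i j hij
    have : e i < e j := e.strictMono hij
    rw [Fin.lt_def] at this
    unfold nd
    have : ((e i : ℕ) : ℝ) < ((e j : ℕ) : ℝ) := by exact_mod_cast this
    linarith
  have hc := cauchy_sign k (fun i => (m : ℝ) - nd r (e (rr i))) (fun j => nd r (e (cc j)))
    (fun i j hij => by
      have := hmono _ _ (rr.strictMono hij)
      show (m : ℝ) - nd r (e (rr j)) < m - nd r (e (rr i))
      linarith)
    (fun i j hij => hmono _ _ (cc.strictMono hij))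
    (fun i j => by
      have h1 := he (cc j)
      have h2 := he2 (rr i)
      have h3 : 3 * (e (rr i) : ℕ) < m + 3 * (e (cc j) : ℕ) := by omega
      have h4 : 3 * ((e (rr i) : ℕ) : ℝ) < m + 3 * ((e (cc j) : ℕ) : ℝ) := by exact_mod_cast h3
      unfold nd
      linarith)
  have hp : 0 < ∏ i : Fin k, ((-1 : ℝ) ^ (m / 3) * (wt r (e (rr i)) *
      (-(((3 * (e (rr i) : ℕ) + r).descFactorial m : ℝ) *
        ∏ l : Fin N, (nd r (e (rr i)) - m - nd r l))))) :=
    Finset.prod_pos fun i _ => diag_sign hm3 hr1 hr2 _ (he _)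
  rw [Finset.prod_mul_distrib, Finset.prod_const, Finset.card_univ, Fintype.card_fin] at hp
  have := mul_pos hp hc
  calc (0 : ℝ) < _ := this
    _ = _ := by ring

theorem AM_simple {r m N : ℕ} (hm3 : ¬ 3 ∣ m) (hr1 : 1 ≤ r) (hr2 : r ≤ 2)
    (hN : ∀ i : Fin N, 3 * (i : ℕ) + r < 2 * m) (z : ℂ)
    (hz : ((hp (AM r m N)).map (algebraMap ℝ ℂ)).eval z = 0) :
    (derivative ((hp (AM r m N)).map (algebraMap ℝ ℂ))).eval z ≠ 0 ∧ z.im = 0 := by
  classical
  set J : Finset (Fin N) := Finset.univ.filter (fun i => m ≤ 3 * (i : ℕ) + r) with hJ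
  set e : Fin J.card ↪o Fin N := J.orderEmbOfFin rfl with he
  have hmem : ∀ i, i ∈ J ↔ m ≤ 3 * (i : ℕ) + r := by
    intro i; rw [hJ, Finset.mem_filter]; simp
  have heJ : ∀ a, m ≤ 3 * (e a : ℕ) + r := fun a => (hmem _).mp (J.orderEmbOfFin_mem rfl a)
  have hrow : ∀ i : Fin N, (∀ a, e a ≠ i) → ∀ j, AM r m N i j = 0 := by
    intro i hi j
    have hiJ : i ∉ J := by
      intro h
      have : i ∈ Set.range (J.orderEmbOfFin rfl) := by
        rw [Finset.range_orderEmbOfFin]; exact h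
      obtain ⟨a, ha⟩ := this
      exact hi a ha
    have h1 : ¬ m ≤ 3 * (i : ℕ) + r := fun h => hiJ ((hmem i).mpr h)
    rw [AM, Matrix.of_apply, Nat.descFactorial_of_lt (not_le.mp h1)]
    simp
  have hpe : hp (AM r m N) = hp (AJ r m N e) := by
    apply hp_ext
    intro s
    rw [hf_submatrix (AM r m N) e e.injective hrow s]
    have e1 : (AM r m N).submatrix e e = Matrix.of fun i j : Fin J.card =>
        (-(((3 * (e i : ℕ) + r).descFactorial m : ℝ) * ∏ l : Fin N, (nd r (e i) - m - nd r l))) *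
        (Matrix.of (fun i j : Fin J.card => 1 / (((m : ℝ) - nd r (e i)) + nd r (e j)))) i j *
        wt r (e j) := by
      ext i j
      rw [Matrix.submatrix_apply, AM_eq hm3]
      rfl
    rw [e1, hf_conj]
    rfl
  rw [hpe] at hz ⊢
  exact simple_real (AJ r m N e) _ (AJ_minor hm3 hr1 hr2 e heJ (fun a => hN _)) z hz

end OkamotoTP
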