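import Pool.Agent.H95.Okamoto.Link2

namespace OkamotoTP

open Matrix Finset Polynomial

theorem AM_three {r m N : ℕ} (hm : 1 ≤ m) (hm3 : 3 ∣ m) (hr2 : r ≤ 2) (s : ℝ) :
    hf (AM r m N) s = 1 := by
  classical
  have key : ∀ i j : Fin N, i ≤ j → AM r m N i j = 0 := by
    intro i j hij
    rw [AM, Matrix.of_apply]
    by_cases h : m ≤ 3 * (i : ℕ) + r
    · obtain ⟨a, rfl⟩ := hm3
      have hai : a ≤ (i : ℕ) := by omega
      have hi := i.2
      set l : Fin N := ⟨(i : ℕ) - a, by omega⟩ with hl
      have hnd : nd r i - ((3 * a : ℕ) : ℝ) = nd r l := by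
        unfold nd
        have : ((l : ℕ) : ℝ) = ((i : ℕ) : ℝ) - (a : ℝ) := by
          rw [hl]; push_cast [Nat.cast_sub hai]; ring
        rw [this]; push_cast; ring
      have hne : j ≠ l := by
        intro hj
        rw [Fin.le_def, hj, hl] at hij
        simp at hij
        omega
      rw [hnd, Lagrange.eval_basis_of_ne hne (Finset.mem_univ _), mul_zero]
    · rw [Nat.descFactorial_of_lt (not_le.mp h)]
      simp
  unfold hf
  rw [Matrix.det_of_isLowerTriangular]
  · apply Finset.prod_eq_one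
    intro i _
    simp [key i i le_rfl]
  · intro i j hij
    have hij' : i < j := hij
    simp [Matrix.one_apply_ne hij'.ne, key i j hij'.le]

/-- Main simplicity statement for the matrix `D L`. -/
theorem AM_simple' {r m N : ℕ} (hm : 1 ≤ m) (hr1 : 1 ≤ r) (hr2 : r ≤ 2)
    (hN : ∀ i : Fin N, 3 * (i : ℕ) + r < 2 * m) (z : ℂ)
    (hz : ((hp (AM r m N)).map (algebraMap ℝ ℂ)).eval z = 0) :
    (derivative ((hp (AM r m N)).map (algebraMap ℝ ℂ))).eval z ≠ 0 ∧ z.im = 0 := by
  by_cases hm3 : 3 ∣ m
  · exfalso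
    have : hp (AM r m N) = 1 := by
      apply Polynomial.funext
      intro s
      rw [hp_eval, AM_three hm hm3 hr2]; simp
    rw [this] at hz
    simp at hz
  · exact AM_simple hm3 hr1 hr2 hN z hz

/-- values of the falling factorial polynomials at the nodes -/
noncomputable def VM (r N : ℕ) : Matrix (Fin N) (Fin N) ℝ :=
  Matrix.of fun i j => (descPochhammer ℝ (j : ℕ)).eval (nd r i)

theorem VM_det_ne {r N : ℕ} : (VM r N).det ≠ 0 := by
  unfold VM
  rw [← Matrix.det_eval_matrixOfPolynomials_eq_det_vandermonde (nd r)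
    (fun j : Fin N => descPochhammer ℝ (j : ℕ))
    (fun j => descPochhammer_natDegree ℝ _) (fun j => monic_descPochhammer ℝ _)]
  exact Matrix.det_vandermonde_ne_zero_iff.mpr (nd_inj r)

theorem AM_mul_VM {r m N : ℕ} (i j : Fin N) :
    (AM r m N * VM r N) i j = ((3 * (i : ℕ) + r).descFactorial m : ℝ) *
      (descPochhammer ℝ (j : ℕ)).eval (nd r i - m) := by
  have hdeg : (descPochhammer ℝ (j : ℕ)).degree < (Finset.univ : Finset (Fin N)).card := by
    rw [Finset.card_univ, Fintype.card_fin]
    refine lt_of_le_of_lt Polynomial.degree_le_natDegree ?_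
    rw [descPochhammer_natDegree]
    exact_mod_cast j.2
  have h := Lagrange.eq_interpolate (s := Finset.univ) (v := nd r)
    ((nd_inj r (N := N)).injOn) hdeg
  rw [Lagrange.interpolate_apply] at h
  rw [Matrix.mul_apply]
  conv_rhs => rw [h]
  rw [Polynomial.eval_finsetSum, Finset.mul_sum]
  refine Finset.sum_congr rfl fun l _ => ?_
  simp only [AM, VM, Matrix.of_apply, Polynomial.eval_mul, Polynomial.eval_C]
  ring

end OkamotoTP
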