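import Pool.Agent.H95.Okamoto.Link3

/-! # The Okamoto polynomial hierarchies: definitions and the determinant formula -/

namespace OkamotoTP

open Matrix Finset Polynomial

/-- `p_j^{[m]}(z) = ∑_{k ≤ j/m} z^{j-mk} / (k! (j-mk)!)`, the coefficient of `ε^j` in
`exp (ε^m + z ε)`. -/
noncomputable def okP (m j : ℕ) : ℂ[X] :=
  ∑ k ∈ Finset.range (j / m + 1),
    C (1 / ((k.factorial : ℂ) * ((j - m * k).factorial : ℂ))) * X ^ (j - m * k)

/-- The same with an integer index, zero for negative index. -/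
noncomputable def okPZ (m : ℕ) (n : ℤ) : ℂ[X] := if 0 ≤ n then okP m n.toNat else 0

/-- `c_N = 3^{-N(N-1)/2} ∏_{k=1}^N (3k-1)!/(k-1)!`. -/
noncomputable def okc (N : ℕ) : ℂ :=
  ((3 : ℂ) ^ (N * (N - 1) / 2))⁻¹ *
    ∏ k ∈ Finset.Icc 1 N, ((3 * k - 1).factorial : ℂ) / ((k - 1).factorial : ℂ)

/-- `d_N = 3^{-N(N-1)/2} ∏_{k=1}^N (3k-2)!/(k-1)!`. -/
noncomputable def okd (N : ℕ) : ℂ :=
  ((3 : ℂ) ^ (N * (N - 1) / 2))⁻¹ *
    ∏ k ∈ Finset.Icc 1 N, ((3 * k - 2).factorial : ℂ) / ((k - 1).factorial : ℂ)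

/-- `Q_N^{[m]} = c_N det (p_{3i-j})_{1 ≤ i,j ≤ N}`. -/
noncomputable def okQ (m N : ℕ) : ℂ[X] :=
  C (okc N) * (Matrix.of fun i j : Fin N => okPZ m (3 * ((i : ℤ) + 1) - ((j : ℤ) + 1))).det

/-- `R_N^{[m]} = d_N det (p_{3i-1-j})_{1 ≤ i,j ≤ N}`. -/
noncomputable def okR (m N : ℕ) : ℂ[X] :=
  C (okd N) * (Matrix.of fun i j : Fin N => okPZ m (3 * ((i : ℤ) + 1) - 1 - ((j : ℤ) + 1))).det

theorem okP_small {m n : ℕ} (hn : n < 2 * m) (z : ℂ) :
    (okP m n).eval z = z ^ n / (n.factorial : ℂ) +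
      (if m ≤ n then z ^ (n - m) / ((n - m).factorial : ℂ) else 0) := by
  unfold okP
  by_cases h : m ≤ n
  · have h1 : n / m = 1 := by
      apply Nat.div_eq_of_lt_le <;> omega
    rw [h1, if_pos h]
    simp [Finset.sum_range_succ, Polynomial.eval_add, Polynomial.eval_mul]
    ring
  · rw [Nat.div_eq_of_lt (by omega), if_neg h]
    simp [Polynomial.eval_mul]
    ring

theorem entry_eq {m b : ℕ} (hm : 1 ≤ m) (hb : b < 2 * m) (j : ℕ) (z : ℂ) (hz : z ≠ 0) :
    z ^ j * (okPZ m ((b : ℤ) - (j : ℤ))).eval z = (z ^ b / (b.factorial : ℂ)) *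
      ((((descPochhammer ℝ j).eval (b : ℝ) : ℝ) : ℂ) + (z ^ m)⁻¹ *
        (((((b.descFactorial m : ℕ) : ℝ) * (descPochhammer ℝ j).eval ((b : ℝ) - m) : ℝ)) : ℂ)) := by
  have hzm : z ^ m ≠ 0 := pow_ne_zero _ hz
  rw [descPochhammer_eval_eq_descFactorial]
  have hbf : (b.factorial : ℂ) ≠ 0 := by exact_mod_cast b.factorial_ne_zero
  -- the second value
  have h2 : ((((b.descFactorial m : ℕ) : ℝ) * (descPochhammer ℝ j).eval ((b : ℝ) - m) : ℝ) : ℂ) =
      if m ≤ b then (b.descFactorial m : ℂ) * ((b - m).descFactorial j : ℂ) else 0 := by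
    by_cases h : m ≤ b
    · rw [if_pos h]
      have : (b : ℝ) - m = ((b - m : ℕ) : ℝ) := by rw [Nat.cast_sub h]
      rw [this, descPochhammer_eval_eq_descFactorial]
      push_cast; ring
    · rw [if_neg h, Nat.descFactorial_of_lt (not_le.mp h)]
      simp
  rw [h2]
  by_cases hj : j ≤ b
  · have e0 : (b : ℤ) - (j : ℤ) = ((b - j : ℕ) : ℤ) := by omega
    rw [e0, okPZ, if_pos (Int.natCast_nonneg _), Int.toNat_natCast, okP_small (by omega)]
    have f1 : ((b - j).factorial : ℂ) * (b.descFactorial j : ℂ) = (b.factorial : ℂ) := by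
      exact_mod_cast Nat.factorial_mul_descFactorial hj
    have hbj : ((b - j).factorial : ℂ) ≠ 0 := by exact_mod_cast (b - j).factorial_ne_zero
    have g1 : z ^ j * (z ^ (b - j) / ((b - j).factorial : ℂ)) =
        z ^ b / (b.factorial : ℂ) * (b.descFactorial j : ℂ) := by
      rw [← f1]
      have hd : (b.descFactorial j : ℂ) ≠ 0 := by
        intro h; rw [h, mul_zero] at f1; exact hbf f1.symm
      have : z ^ b = z ^ j * z ^ (b - j) := by rw [← pow_add]; congr 1; omega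
      rw [this]
      field_simp
    rw [mul_add, mul_add, g1]
    congr 1
    by_cases hmj : m ≤ b - j
    · have hmb : m ≤ b := by omega
      rw [if_pos hmj, if_pos hmb]
      have f2 : ((b - m).factorial : ℂ) * (b.descFactorial m : ℂ) = (b.factorial : ℂ) := by
        exact_mod_cast Nat.factorial_mul_descFactorial hmb
      have f3 : ((b - m - j).factorial : ℂ) * ((b - m).descFactorial j : ℂ) =
          ((b - m).factorial : ℂ) := by
        exact_mod_cast Nat.factorial_mul_descFactorial (show j ≤ b - m by omega)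
      have hbm : ((b - m).factorial : ℂ) ≠ 0 := by exact_mod_cast (b - m).factorial_ne_zero
      have hbmj : ((b - m - j).factorial : ℂ) ≠ 0 := by exact_mod_cast (b - m - j).factorial_ne_zero
      have e3 : b - j - m = b - m - j := by omega
      rw [e3]
      have hd1 : (b.descFactorial m : ℂ) ≠ 0 := by
        intro h; rw [h, mul_zero] at f2; exact hbf f2.symm
      have hd2 : ((b - m).descFactorial j : ℂ) ≠ 0 := by
        intro h; rw [h, mul_zero] at f3; exact hbm f3.symm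
      have : z ^ b = z ^ m * (z ^ j * z ^ (b - m - j)) := by
        rw [← pow_add, ← pow_add]; congr 1; omega
      rw [this, ← f2, ← f3]
      field_simp
    · rw [if_neg hmj, mul_zero]
      by_cases hmb : m ≤ b
      · rw [if_pos hmb, Nat.descFactorial_of_lt (show b - m < j by omega)]
        simp
      · rw [if_neg hmb]; simp
  · have e0 : okPZ m ((b : ℤ) - (j : ℤ)) = 0 := by
      rw [okPZ, if_neg (by omega)]
    rw [e0, Nat.descFactorial_of_lt (show b < j by omega)]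
    by_cases hmb : m ≤ b
    · rw [if_pos hmb, Nat.descFactorial_of_lt (show b - m < j by omega)]
      simp
    · rw [if_neg hmb]; simp

theorem hp_map_eval {n : ℕ} (A : Matrix (Fin n) (Fin n) ℝ) (t : ℂ) :
    ((hp A).map (algebraMap ℝ ℂ)).eval t =
      (1 + t • A.map (fun x : ℝ => (x : ℂ))).det := by
  rw [Polynomial.eval_map, ← Polynomial.coe_eval₂RingHom, hp, RingHom.map_det]
  congr 1
  ext i j
  by_cases hij : i = j
  · subst hij
    simp
    ring
  · simp [Matrix.one_apply_ne hij]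
    ring

theorem det_formula {m N r : ℕ} (hm : 1 ≤ m) (hN : ∀ i : Fin N, 3 * (i : ℕ) + r < 2 * m)
    (z : ℂ) (hz : z ≠ 0) :
    (∏ j : Fin N, z ^ (j : ℕ)) *
      (Matrix.of fun i j : Fin N => okPZ m (((3 * (i : ℕ) + r : ℕ) : ℤ) - ((j : ℕ) : ℤ))).det.eval z =
    (∏ i : Fin N, (z ^ (3 * (i : ℕ) + r) / ((3 * (i : ℕ) + r).factorial : ℂ))) *
      (((hp (AM r m N)).map (algebraMap ℝ ℂ)).eval (z ^ m)⁻¹ * ((VM r N).det : ℂ)) := by
  have h1 : (Matrix.of fun i j : Fin N =>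
      okPZ m (((3 * (i : ℕ) + r : ℕ) : ℤ) - ((j : ℕ) : ℤ))).det.eval z =
      (Matrix.of fun i j : Fin N =>
        (okPZ m (((3 * (i : ℕ) + r : ℕ) : ℤ) - ((j : ℕ) : ℤ))).eval z).det := by
    rw [← Polynomial.coe_evalRingHom, RingHom.map_det]
    rfl
  rw [h1, ← Matrix.det_mul_row, hp_map_eval]
  have h2 : ((VM r N).det : ℂ) = ((VM r N).map (fun x : ℝ => (x : ℂ))).det := by
    have := RingHom.map_det (algebraMap ℝ ℂ) (VM r N)
    exact this
  rw [h2, ← Matrix.det_mul, ← Matrix.det_mul_column]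
  congr 1
  ext i j
  simp only [Matrix.of_apply]
  rw [entry_eq hm (hN i) j z hz]
  congr 1
  rw [Matrix.add_mul, Matrix.one_mul, Matrix.add_apply, Matrix.smul_mul, Matrix.smul_apply]
  have h3 : ((AM r m N).map (fun x : ℝ => (x : ℂ)) * (VM r N).map (fun x : ℝ => (x : ℂ))) i j =
      (((AM r m N * VM r N) i j : ℝ) : ℂ) := by
    simp only [Matrix.mul_apply, Matrix.map_apply]
    push_cast
    rfl
  rw [h3, AM_mul_VM, smul_eq_mul]
  have h4 : nd r i = ((3 * (i : ℕ) + r : ℕ) : ℝ) := by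
    unfold nd; push_cast; ring
  rw [← h4]
  rfl

/-- Simplicity of nonzero roots from the determinant formula. -/
theorem simple_of_formula {m J S : ℕ} (hm : 1 ≤ m) (F P : ℂ[X]) (K : ℂ) (hK : K ≠ 0)
    (hF : ∀ z : ℂ, z ≠ 0 → z ^ J * F.eval z = K * z ^ S * P.eval (z ^ m)⁻¹)
    (hP : ∀ t : ℂ, P.eval t = 0 → (derivative P).eval t ≠ 0)
    (z : ℂ) (hz : z ≠ 0) (hr : F.IsRoot z) : F.rootMultiplicity z = 1 := by
  have hzm : z ^ m ≠ 0 := pow_ne_zero _ hz
  have hFz : F.eval z = 0 := hr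
  have hPz : P.eval (z ^ m)⁻¹ = 0 := by
    have := hF z hz
    rw [hFz, mul_zero] at this
    rcases mul_eq_zero.mp this.symm with h | h
    · exact absurd h (mul_ne_zero hK (pow_ne_zero _ hz))
    · exact h
  have hP' := hP _ hPz
  -- derivatives of both sides
  have d1 : HasDerivAt (fun w : ℂ => w ^ J * F.eval w)
      ((J : ℂ) * z ^ (J - 1) * F.eval z + z ^ J * (derivative F).eval z) z :=
    (hasDerivAt_pow J z).mul (F.hasDerivAt z)
  have d2 : HasDerivAt (fun w : ℂ => (w ^ m)⁻¹) (-((m : ℂ) * z ^ (m - 1)) / (z ^ m) ^ 2) z :=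
    (hasDerivAt_pow m z).inv hzm
  have d3 : HasDerivAt (fun w : ℂ => P.eval (w ^ m)⁻¹)
      ((derivative P).eval (z ^ m)⁻¹ * (-((m : ℂ) * z ^ (m - 1)) / (z ^ m) ^ 2)) z :=
    HasDerivAt.comp z (h₂ := fun x : ℂ => P.eval x) (h := fun w : ℂ => (w ^ m)⁻¹)
      (P.hasDerivAt (z ^ m)⁻¹) d2
  have d4 : HasDerivAt (fun w : ℂ => (K * w ^ S) * P.eval (w ^ m)⁻¹)
      ((K * ((S : ℂ) * z ^ (S - 1))) * P.eval (z ^ m)⁻¹ + (K * z ^ S) *
        ((derivative P).eval (z ^ m)⁻¹ * (-((m : ℂ) * z ^ (m - 1)) / (z ^ m) ^ 2))) z :=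
    ((hasDerivAt_pow S z).const_mul K).mul d3
  have hev : (fun w : ℂ => w ^ J * F.eval w) =ᶠ[nhds z]
      (fun w : ℂ => (K * w ^ S) * P.eval (w ^ m)⁻¹) := by
    filter_upwards [isOpen_ne.mem_nhds hz] with w hw
    exact hF w hw
  have d5 := d4.congr_of_eventuallyEq hev
  have heq := d1.unique d5
  rw [hFz, hPz, mul_zero, mul_zero, zero_add, zero_add] at heq
  have hm0 : (m : ℂ) ≠ 0 := by exact_mod_cast (by omega : m ≠ 0)
  have hne : (K * z ^ S) *
      ((derivative P).eval (z ^ m)⁻¹ * (-((m : ℂ) * z ^ (m - 1)) / (z ^ m) ^ 2)) ≠ 0 := by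
    refine mul_ne_zero (mul_ne_zero hK (pow_ne_zero _ hz)) (mul_ne_zero hP' ?_)
    refine div_ne_zero (neg_ne_zero.mpr (mul_ne_zero hm0 (pow_ne_zero _ hz))) (pow_ne_zero _ hzm)
  have hF' : (derivative F).eval z ≠ 0 := by
    intro h
    rw [h, mul_zero] at heq
    exact hne heq.symm
  have hF0 : F ≠ 0 := by
    intro h; rw [h] at hF'; simp at hF'
  have h1 : 0 < F.rootMultiplicity z := (Polynomial.rootMultiplicity_pos hF0).mpr hr
  have h2 : ¬ 1 < F.rootMultiplicity z := by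
    intro h
    exact hF' ((Polynomial.one_lt_rootMultiplicity_iff_isRoot hF0).mp h).2
  omega

theorem simple_general {m N r : ℕ} (hm : 1 ≤ m) (hr1 : 1 ≤ r) (hr2 : r ≤ 2)
    (hN : ∀ i : Fin N, 3 * (i : ℕ) + r < 2 * m) (c : ℂ) (hc : c ≠ 0)
    (z : ℂ) (hz : z ≠ 0)
    (hroot : (C c * (Matrix.of fun i j : Fin N =>
      okPZ m (((3 * (i : ℕ) + r : ℕ) : ℤ) - ((j : ℕ) : ℤ))).det).IsRoot z) :
    (C c * (Matrix.of fun i j : Fin N =>
      okPZ m (((3 * (i : ℕ) + r : ℕ) : ℤ) - ((j : ℕ) : ℤ))).det).rootMultiplicity z = 1 := by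
  refine simple_of_formula (J := ∑ j : Fin N, (j : ℕ)) (S := ∑ i : Fin N, (3 * (i : ℕ) + r)) hm _
    ((hp (AM r m N)).map (algebraMap ℝ ℂ))
    (c * (∏ i : Fin N, (((3 * (i : ℕ) + r).factorial : ℂ))⁻¹) * ((VM r N).det : ℂ)) ?_ ?_
    (fun t ht => (AM_simple' hm hr1 hr2 hN t ht).1) z hz hroot
  · refine mul_ne_zero (mul_ne_zero hc ?_) (by exact_mod_cast VM_det_ne)
    rw [Finset.prod_ne_zero_iff]
    intro i _
    exact inv_ne_zero (by exact_mod_cast (3 * (i : ℕ) + r).factorial_ne_zero)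
  · intro w hw
    have h := det_formula hm hN w hw
    rw [Polynomial.eval_mul, Polynomial.eval_C]
    rw [Finset.prod_pow_eq_pow_sum] at h
    have h5 : (∏ i : Fin N, (w ^ (3 * (i : ℕ) + r) / ((3 * (i : ℕ) + r).factorial : ℂ))) =
        w ^ (∑ i : Fin N, (3 * (i : ℕ) + r)) *
          (∏ i : Fin N, (((3 * (i : ℕ) + r).factorial : ℂ))⁻¹) := by
      rw [← Finset.prod_pow_eq_pow_sum, ← Finset.prod_mul_distrib]
      rfl
    rw [h5] at h
    rw [mul_left_comm, h]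
    ring

end OkamotoTP
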