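import Pool.Agent.H95.Okamoto.Inter

/-! # Strictly sign regular matrices have real simple spectrum -/

namespace OkamotoTP

open Matrix Finset Polynomial

theorem sq_nodup {n : ℕ} (B : Matrix (Fin n) (Fin n) ℝ) (hB : SP B) :
    ((hp B).comp (-X ^ 2)).map (algebraMap ℝ ℂ) ≠ 0 ∧
    (((hp B).comp (-X ^ 2)).map (algebraMap ℝ ℂ)).roots.Nodup ∧
    ∀ z ∈ (((hp B).comp (-X ^ 2)).map (algebraMap ℝ ℂ)).roots, z.im = 0 := by
  classical
  set F := ((hp B).comp (-X ^ 2)).map (algebraMap ℝ ℂ) with hF
  have hF0 : F ≠ 0 := by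
    intro h
    have h1 : F.eval 0 = 0 := by rw [h]; simp
    have h2 : F.eval ((0 : ℝ) : ℂ) = (((hp B).comp (-X ^ 2)).eval 0 : ℝ) := by
      rw [hF, Polynomial.eval_map_algebraMap]
      exact (Polynomial.aeval_algebraMap_apply_eq_algebraMap_eval (A := ℂ) (0 : ℝ)
        ((hp B).comp (-X ^ 2)))
    rw [Polynomial.eval_comp] at h2
    simp only [Polynomial.eval_neg, Polynomial.eval_pow, Polynomial.eval_X] at h2
    rw [hp_eval] at h2
    norm_num at h2
    rw [h1, hf_zero] at h2
    norm_num at h2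
  obtain ⟨y, hy, hy0, hyr⟩ := exists_neg_roots B hB
  have hsq : ∀ k, 0 < Real.sqrt (-y k) := fun k => Real.sqrt_pos.mpr (by linarith [hy0 k])
  have hss : ∀ k, Real.sqrt (-y k) ^ 2 = -y k := fun k => Real.sq_sqrt (by linarith [hy0 k])
  set g : Fin n ⊕ Fin n → ℂ := Sum.elim (fun k => ((Real.sqrt (-y k) : ℝ) : ℂ))
    (fun k => ((-Real.sqrt (-y k) : ℝ) : ℂ)) with hg
  have hginj : Function.Injective g := by
    have hsi : ∀ i j, Real.sqrt (-y i) = Real.sqrt (-y j) → i = j := by
      intro i j h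
      have h2 := hss i
      rw [h, hss j] at h2
      exact hy.injective (by linarith)
    intro a b hab
    rcases a with a | a <;> rcases b with b | b <;>
      simp only [hg, Sum.elim_inl, Sum.elim_inr, Complex.ofReal_inj] at hab
    · rw [hsi a b hab]
    · linarith [hsq a, hsq b]
    · linarith [hsq a, hsq b]
    · rw [hsi a b (by linarith)]
  have hev : ∀ x : ℝ, F.eval (x : ℂ) = ((hf B (-x ^ 2) : ℝ) : ℂ) := by
    intro x
    rw [hF, Polynomial.eval_map_algebraMap]
    have := (Polynomial.aeval_algebraMap_apply_eq_algebraMap_eval (A := ℂ) (x : ℝ)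
        ((hp B).comp (-X ^ 2)))
    rw [Polynomial.eval_comp] at this
    simp only [Polynomial.eval_neg, Polynomial.eval_pow, Polynomial.eval_X] at this
    rw [hp_eval] at this
    exact this
  have hgr : ∀ a, F.eval (g a) = 0 := by
    intro a
    rcases a with a | a
    · simp only [hg, Sum.elim_inl]
      rw [hev, hss, neg_neg, hyr]; simp
    · simp only [hg, Sum.elim_inr]
      rw [hev, neg_sq, hss, neg_neg, hyr]; simp
  have hsub : Finset.univ.image g ⊆ F.roots.toFinset := by
    intro a ha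
    rw [Finset.mem_image] at ha
    obtain ⟨b, _, rfl⟩ := ha
    rw [Multiset.mem_toFinset, Polynomial.mem_roots hF0]
    exact hgr b
  have hcard : (Finset.univ.image g).card = n + n := by
    rw [Finset.card_image_of_injective _ hginj, Finset.card_univ, Fintype.card_sum,
      Fintype.card_fin]
  have hdeg : F.natDegree ≤ n + n := by
    refine le_trans Polynomial.natDegree_map_le ?_
    refine le_trans Polynomial.natDegree_comp_le ?_
    have h1 : (-X ^ 2 : ℝ[X]).natDegree ≤ 2 := by
      rw [Polynomial.natDegree_neg]; exact Polynomial.natDegree_X_pow_le 2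
    have h2 := hp_natDegree B
    calc (hp B).natDegree * (-X ^ 2 : ℝ[X]).natDegree ≤ n * 2 := Nat.mul_le_mul h2 h1
      _ = n + n := by ring
  have h1 := Finset.card_le_card hsub
  have h2 := Multiset.toFinset_card_le F.roots
  have h3 := Polynomial.card_roots' F
  refine ⟨hF0, ?_, ?_⟩
  · rw [← Multiset.toFinset_card_eq_card_iff_nodup]
    omega
  · intro z hz
    have heq : Finset.univ.image g = F.roots.toFinset :=
      Finset.eq_of_subset_of_card_le hsub (by omega)
    have hz2 : z ∈ Finset.univ.image g := by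
      rw [heq, Multiset.mem_toFinset]; exact hz
    rw [Finset.mem_image] at hz2
    obtain ⟨b, _, rfl⟩ := hz2
    rcases b with b | b
    · simp only [hg, Sum.elim_inl]; exact Complex.ofReal_im _
    · simp only [hg, Sum.elim_inr]; exact Complex.ofReal_im _

theorem hp_mul_comp {n : ℕ} (A : Matrix (Fin n) (Fin n) ℝ) :
    hp A * (hp A).comp (-X) = (hp (A * A)).comp (-X ^ 2) := by
  apply Polynomial.funext
  intro s
  rw [Polynomial.eval_mul, Polynomial.eval_comp, Polynomial.eval_comp]
  simp only [Polynomial.eval_neg, Polynomial.eval_pow, Polynomial.eval_X]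
  rw [hp_eval, hp_eval, hp_eval]
  unfold hf
  rw [← Matrix.det_mul]
  congr 1
  rw [Matrix.mul_add, Matrix.add_mul, Matrix.add_mul]
  simp only [Matrix.one_mul, Matrix.mul_one, neg_smul, Matrix.mul_neg, Matrix.smul_mul,
    Matrix.mul_smul, smul_smul]
  rw [pow_two]
  abel

/-- If all minors of `A` have signs depending only on the size, then `det (1 + z A)` has only
real simple roots. -/
theorem simple_real {n : ℕ} (A : Matrix (Fin n) (Fin n) ℝ) (ε : ℕ → ℝ)
    (h : ∀ (k : ℕ) (r c : Fin k ↪o Fin n), 0 < ε k * (A.submatrix r c).det) (z : ℂ)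
    (hz : ((hp A).map (algebraMap ℝ ℂ)).eval z = 0) :
    (derivative ((hp A).map (algebraMap ℝ ℂ))).eval z ≠ 0 ∧ z.im = 0 := by
  classical
  obtain ⟨hF0, hnd, him⟩ := sq_nodup (A * A) (SP_mul_self A ε h)
  set F := ((hp (A * A)).comp (-X ^ 2)).map (algebraMap ℝ ℂ) with hF
  set P := (hp A).map (algebraMap ℝ ℂ) with hP
  have hdvd : P ∣ F := by
    rw [hF, ← hp_mul_comp, Polynomial.map_mul]
    exact dvd_mul_right _ _
  have hP0 : P ≠ 0 := fun h0 => hF0 (by rw [h0] at hdvd; exact zero_dvd_iff.mp hdvd)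
  have hle : P.roots ≤ F.roots := Polynomial.roots.le_of_dvd hF0 hdvd
  have hPnd : P.roots.Nodup := Multiset.nodup_of_le hle hnd
  have hmem : z ∈ P.roots := (Polynomial.mem_roots hP0).mpr hz
  refine ⟨?_, him z (Multiset.mem_of_le hle hmem)⟩
  intro hd
  have h1 : 1 < P.rootMultiplicity z :=
    (Polynomial.one_lt_rootMultiplicity_iff_isRoot hP0).mpr ⟨hz, hd⟩
  have h2 : P.rootMultiplicity z ≤ 1 := by
    rw [← Polynomial.count_roots]
    exact Multiset.nodup_iff_count_le_one.mp hPnd z
  omega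

end OkamotoTP
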