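import Pool.Agent.H95.Okamoto.TP
import Pool.Agent.H95.Okamoto.DJ

/-! # Subtracting a nonnegative subdiagonal from a strictly totally positive matrix -/

namespace OkamotoTP

open Matrix Finset

/-- The matrix with entries `e i` on the subdiagonal. -/
def subD (k : ℕ) (e : ℕ → ℝ) : Matrix (Fin k) (Fin k) ℝ :=
  fun i j => if (i : ℕ) = (j : ℕ) + 1 then e i else 0

/-- Truncation. -/
def trunc (l : ℕ) (e : ℕ → ℝ) : ℕ → ℝ := fun i => if i < l then e i else 0

theorem det_sub_subD_pos : ∀ (k : ℕ) (C : Matrix (Fin k) (Fin k) ℝ), SP C →
    ∀ e : ℕ → ℝ, (∀ i, 0 ≤ e i) → 0 < (C - subD k e).det := by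
  intro k
  induction k with
  | zero => intro C _ e _; simp
  | succ k ih =>
    intro C hC e he
    have key : ∀ l : ℕ, 0 < (C - subD (k + 1) (trunc l e)).det := by
      intro l
      induction l with
      | zero =>
        have : subD (k + 1) (trunc 0 e) = 0 := by
          ext i j; simp [subD, trunc]
        rw [this, sub_zero]; exact hC.det_pos
      | succ l ihl =>
        by_cases hl : 1 ≤ l ∧ l < k + 1
        · obtain ⟨hl1, hl2⟩ := hl
          set i0 : Fin (k + 1) := ⟨l, hl2⟩ with hi0
          set j0 : Fin (k + 1) := ⟨l - 1, by omega⟩ with hj0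
          set N := C - subD (k + 1) (trunc l e) with hN
          have e1 : C - subD (k + 1) (trunc (l + 1) e) =
              N.updateRow i0 (N i0 + (-e l) • Pi.single j0 1) := by
            ext i j
            by_cases hi : i = i0
            · subst hi
              rw [Matrix.updateRow_self]
              simp only [hN, Matrix.sub_apply, Pi.add_apply, Pi.smul_apply, smul_eq_mul, subD, trunc]
              by_cases hj : j = j0
              · subst hj
                have h1 : ((i0 : Fin (k + 1)) : ℕ) = (j0 : ℕ) + 1 := by
                  simp [hi0, hj0]; omega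
                rw [if_pos h1, if_pos h1, Pi.single_eq_same]
                have h2 : (i0 : ℕ) = l := rfl
                rw [h2]; simp; ring
              · have h1 : ¬ ((i0 : Fin (k + 1)) : ℕ) = (j : ℕ) + 1 := by
                  intro h
                  apply hj
                  apply Fin.ext
                  simp [hj0]
                  have h2 : (i0 : ℕ) = l := rfl
                  omega
                rw [if_neg h1, if_neg h1, Pi.single_eq_of_ne hj]
                simp
            · rw [Matrix.updateRow_ne hi]
              simp only [hN, Matrix.sub_apply, subD, trunc]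
              have h2 : (i : ℕ) ≠ l := fun h => hi (Fin.ext h)
              by_cases h3 : (i : ℕ) = (j : ℕ) + 1
              · rw [if_pos h3, if_pos h3]
                by_cases h4 : (i : ℕ) < l
                · rw [if_pos h4, if_pos (by omega)]
                · rw [if_neg h4, if_neg (by omega)]
              · rw [if_neg h3, if_neg h3]
          have e2 : (N.submatrix i0.succAbove j0.succAbove) =
              (C.submatrix (Fin.succAboveOrderEmb i0) (Fin.succAboveOrderEmb j0)) -
                subD k (trunc l e) := by
            ext i j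
            simp only [hN, Matrix.submatrix_apply, Matrix.sub_apply, Fin.succAboveOrderEmb_apply]
            congr 1
            simp only [subD, trunc]
            have hi : ((i0.succAbove i : Fin (k + 1)) : ℕ) = if (i : ℕ) < l then (i : ℕ) else i + 1 := by
              simp only [Fin.succAbove, Fin.lt_def, hi0]
              simp only [Fin.val_castSucc]
              split_ifs <;> simp
            have hj : ((j0.succAbove j : Fin (k + 1)) : ℕ) =
                if (j : ℕ) < l - 1 then (j : ℕ) else j + 1 := by
              simp only [Fin.succAbove, Fin.lt_def, hj0]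
              simp only [Fin.val_castSucc]
              split_ifs <;> simp
            rw [hi, hj]
            by_cases h1 : (i : ℕ) < l
            · rw [if_pos h1, if_pos h1]
              by_cases h2 : (i : ℕ) = (j : ℕ) + 1
              · rw [if_pos h2, if_pos (show (j : ℕ) < l - 1 by omega), if_pos h2]
              · rw [if_neg h2]
                split_ifs <;> first | rfl | omega
            · rw [if_neg h1, if_neg h1]
              have h3 : ¬ ((i : ℕ) + 1 < l) := by omega
              rw [if_neg h3]
              simp
          rw [e1, Matrix.det_updateRow_add, Matrix.det_updateRow_smul, Matrix.updateRow_eq_self,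
            ← Matrix.adjugate_apply, Matrix.adjugate_fin_succ_eq_det_submatrix, e2]
          have hodd : ((-1 : ℝ) ^ ((i0 : ℕ) + (j0 : ℕ))) = -1 := by
            apply Odd.neg_one_pow
            have : (i0 : ℕ) + (j0 : ℕ) = l + (l - 1) := rfl
            rw [this]
            exact ⟨l - 1, by omega⟩
          rw [hodd]
          have h5 := ih _ (hC.submatrix (Fin.succAboveOrderEmb i0) (Fin.succAboveOrderEmb j0))
            (trunc l e) (fun i => by unfold trunc; split_ifs; exacts [he i, le_refl _])
          nlinarith [he l, mul_nonneg (he l) h5.le]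
        · have : subD (k + 1) (trunc (l + 1) e) = subD (k + 1) (trunc l e) := by
            ext i j
            simp only [subD, trunc]
            by_cases h3 : (i : ℕ) = (j : ℕ) + 1
            · rw [if_pos h3, if_pos h3]
              have := i.2
              by_cases h4 : (i : ℕ) < l
              · rw [if_pos h4, if_pos (by omega)]
              · rw [if_neg h4, if_neg (by omega)]
            · rw [if_neg h3, if_neg h3]
          rw [this]; exact ihl
    have h := key (k + 1)
    have e3 : subD (k + 1) (trunc (k + 1) e) = subD (k + 1) e := by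
      ext i j
      simp only [subD, trunc, if_pos i.2]
    rwa [e3] at h

/-- The corner minors of `1 - s B` have sign `(-1)^n`. -/
theorem corner_pos {n : ℕ} (B : Matrix (Fin (n + 2)) (Fin (n + 2)) ℝ) (hB : SP B) {s : ℝ}
    (hs : 0 < s) :
    0 < (-1 : ℝ) ^ (n + 1) * ((1 - s • B).submatrix Fin.castSucc Fin.succ).det := by
  have e : (1 - s • B).submatrix (Fin.castSucc : Fin (n + 1) → Fin (n + 2)) Fin.succ =
      -((s • (B.submatrix (Fin.castSuccOrderEmb) (Fin.succOrderEmb (n + 1)))) - subD (n + 1) (fun _ => 1)) := by
    ext i j
    simp only [Matrix.submatrix_apply, Matrix.sub_apply, Matrix.neg_apply, Matrix.smul_apply,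
      subD, Matrix.one_apply, Fin.castSuccOrderEmb_apply, Fin.coe_succOrderEmb, smul_eq_mul]
    have : (Fin.castSucc i = Fin.succ j) ↔ ((i : ℕ) = (j : ℕ) + 1) := by
      rw [Fin.ext_iff]; simp
    simp only [this]
    ring
  rw [e, Matrix.det_neg, Fintype.card_fin]
  have h := det_sub_subD_pos (n + 1) _ ((hB.submatrix (Fin.castSuccOrderEmb)
    (Fin.succOrderEmb (n + 1))).smul hs) (fun _ => 1) (fun _ => zero_le_one)
  rw [← mul_assoc, ← pow_add]
  have : Even (n + 1 + (n + 1)) := ⟨_, rfl⟩
  rw [this.neg_one_pow, one_mul]
  exact h

theorem corner_pos' {n : ℕ} (B : Matrix (Fin (n + 2)) (Fin (n + 2)) ℝ) (hB : SP B) {s : ℝ}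
    (hs : 0 < s) :
    0 < (-1 : ℝ) ^ (n + 1) * ((1 - s • B).submatrix Fin.succ Fin.castSucc).det := by
  have h := corner_pos Bᵀ hB.transpose hs
  have e : ((1 - s • B).submatrix (Fin.succ : Fin (n + 1) → Fin (n + 2)) Fin.castSucc) =
      ((1 - s • Bᵀ).submatrix Fin.castSucc Fin.succ)ᵀ := by
    ext i j
    simp only [Matrix.submatrix_apply, Matrix.sub_apply, Matrix.smul_apply,
      Matrix.one_apply, Matrix.transpose_apply, smul_eq_mul]
    congr 1
    simp [eq_comm]
  rw [e, Matrix.det_transpose]
  exact h

/-- The characteristic type function. -/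
noncomputable def hf {n : ℕ} (B : Matrix (Fin n) (Fin n) ℝ) (s : ℝ) : ℝ := (1 + s • B).det

/-- Polynomial version. -/
noncomputable def hp {n : ℕ} (B : Matrix (Fin n) (Fin n) ℝ) : Polynomial ℝ :=
  (1 + (Polynomial.X : Polynomial ℝ) • B.map Polynomial.C).det

theorem hp_eval {n : ℕ} (B : Matrix (Fin n) (Fin n) ℝ) (s : ℝ) : (hp B).eval s = hf B s := by
  unfold hp hf
  rw [← Polynomial.coe_evalRingHom, RingHom.map_det]
  congr 1
  ext i j
  simp [Matrix.one_apply, apply_ite]
  ring

theorem hf_zero {n : ℕ} (B : Matrix (Fin n) (Fin n) ℝ) : hf B 0 = 1 := by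
  simp [hf]

theorem hp_ne_zero {n : ℕ} (B : Matrix (Fin n) (Fin n) ℝ) : hp B ≠ 0 := by
  intro h
  have := hp_eval B 0
  rw [h, hf_zero] at this
  simp at this

theorem hp_natDegree {n : ℕ} (B : Matrix (Fin n) (Fin n) ℝ) : (hp B).natDegree ≤ n := by
  have := Polynomial.natDegree_det_X_add_C_le B (1 : Matrix (Fin n) (Fin n) ℝ)
  rw [Fintype.card_fin] at this
  have e : (1 + (Polynomial.X : Polynomial ℝ) • B.map Polynomial.C) =
      ((Polynomial.X : Polynomial ℝ) • B.map Polynomial.C +
        (1 : Matrix (Fin n) (Fin n) ℝ).map Polynomial.C) := by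
    rw [add_comm]
    congr 1
    ext i j
    simp [Matrix.one_apply, apply_ite]
  unfold hp
  rw [e]
  exact this

/-- Desnanot-Jacobi for `1 + s B`. -/
theorem hf_dj {n : ℕ} (B : Matrix (Fin (n + 2)) (Fin (n + 2)) ℝ) (s : ℝ) :
    hf B s * hf (B.submatrix (fun i : Fin n => i.succ.castSucc) (fun i : Fin n => i.succ.castSucc)) s =
      hf (B.submatrix Fin.succ Fin.succ) s * hf (B.submatrix Fin.castSucc Fin.castSucc) s -
      ((1 + s • B).submatrix Fin.succ Fin.castSucc).det *
        ((1 + s • B).submatrix Fin.castSucc Fin.succ).det := by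
  have h := desnanot_jacobi (1 + (Polynomial.X : Polynomial ℝ) • B.map Polynomial.C)
    (hp_ne_zero B)
  have h2 := congrArg (Polynomial.eval s) h
  simp only [Polynomial.eval_mul, Polynomial.eval_sub] at h2
  have ev : ∀ {k : ℕ} (r c : Fin k → Fin (n + 2)),
      Polynomial.eval s (((1 + (Polynomial.X : Polynomial ℝ) • B.map Polynomial.C).submatrix r c).det) =
      ((1 + s • B).submatrix r c).det := by
    intro k r c
    rw [← Polynomial.coe_evalRingHom, RingHom.map_det]
    congr 1
    ext i j
    simp [Matrix.one_apply, apply_ite]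
    ring
  have ev0 : Polynomial.eval s (1 + (Polynomial.X : Polynomial ℝ) • B.map Polynomial.C).det = hf B s :=
    hp_eval B s
  have inj : ∀ {k : ℕ} (r : Fin k → Fin (n + 2)), Function.Injective r →
      ((1 + s • B).submatrix r r).det = hf (B.submatrix r r) s := by
    intro k r hr
    unfold hf
    congr 1
    ext i j
    simp [Matrix.one_apply, hr.eq_iff]
  rw [ev0, ev, ev, ev, ev, ev, inj, inj, inj] at h2
  · exact h2
  · exact Fin.castSucc_injective _
  · exact Fin.succ_injective _
  · exact (Fin.castSucc_injective _).comp (Fin.succ_injective _)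

end OkamotoTP
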