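import Mathlib

/-!
# Strictly totally positive matrices

`SP B`: all minors of `B` are positive.  Results: products of strictly sign regular matrices
(Cauchy-Binet), Desnanot-Jacobi, positivity of perturbed minors.
-/

namespace OkamotoTP

open Matrix Finset

/-- All minors (rows and columns in increasing order) are positive. -/
def SP {n : ℕ} (B : Matrix (Fin n) (Fin n) ℝ) : Prop :=
  ∀ (k : ℕ) (r c : Fin k ↪o Fin n), 0 < (B.submatrix r c).det

theorem SP.submatrix {n m : ℕ} {B : Matrix (Fin n) (Fin n) ℝ} (hB : SP B)
    (r c : Fin m ↪o Fin n) : SP (B.submatrix r c) := by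
  intro k r' c'
  have := hB k (r'.trans r) (c'.trans c)
  simpa [Matrix.submatrix_submatrix, Function.comp_def] using this

theorem SP.entry {n : ℕ} {B : Matrix (Fin n) (Fin n) ℝ} (hB : SP B) (i j : Fin n) :
    0 < B i j := by
  have h := hB 1 (OrderEmbedding.ofStrictMono (fun _ => i) (Subsingleton.strictMono _))
    (OrderEmbedding.ofStrictMono (fun _ => j) (Subsingleton.strictMono _))
  simpa [Matrix.det_fin_one] using h

theorem SP.det_pos {n : ℕ} {B : Matrix (Fin n) (Fin n) ℝ} (hB : SP B) : 0 < B.det := by
  have h := hB n (RelEmbedding.refl _) (RelEmbedding.refl _)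
  simpa using h

theorem SP.transpose {n : ℕ} {B : Matrix (Fin n) (Fin n) ℝ} (hB : SP B) : SP Bᵀ := by
  intro k r c
  have h := hB k c r
  rw [← Matrix.det_transpose] at h
  simpa using h

theorem SP.smul {n : ℕ} {B : Matrix (Fin n) (Fin n) ℝ} (hB : SP B) {s : ℝ} (hs : 0 < s) :
    SP (s • B) := by
  intro k r c
  have e : (s • B).submatrix r c = s • (B.submatrix r c) := by
    ext i j; simp
  rw [e, Matrix.det_smul]
  exact mul_pos (by positivity) (hB k r c)

/-- Symmetrised Cauchy-Binet formula. -/
theorem factorial_mul_det_mul {k n : ℕ} (A : Matrix (Fin k) (Fin n) ℝ)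
    (B : Matrix (Fin n) (Fin k) ℝ) :
    (k.factorial : ℝ) * (A * B).det =
      ∑ f : Fin k → Fin n, (A.submatrix id f).det * (B.submatrix f id).det := by
  classical
  have h1 : (A * B).det = ∑ f : Fin k → Fin n, (∏ i, A i (f i)) * (B.submatrix f id).det := by
    have : (A * B) = fun i => ∑ j, A i j • B j := by
      ext i l
      simp [Matrix.mul_apply]
    rw [this]
    have h2 := (Matrix.detRowAlternating (n := Fin k) (R := ℝ)).toMultilinearMap.map_sum
      (fun (i : Fin k) (j : Fin n) => A i j • B j)
    have h3 : (Matrix.det fun i => ∑ j, A i j • B j) =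
        (Matrix.detRowAlternating (n := Fin k) (R := ℝ)).toMultilinearMap
          (fun i => ∑ j, A i j • B j) := rfl
    rw [h3, h2]
    refine Finset.sum_congr rfl fun f _ => ?_
    rw [MultilinearMap.map_smul_univ]
    rfl
  have h2 : ∀ σ : Equiv.Perm (Fin k), (A * B).det =
      ∑ f : Fin k → Fin n, (∏ i, A i (f (σ i))) * (((σ.sign : ℤ) : ℝ) * (B.submatrix f id).det) := by
    intro σ
    rw [h1, ← (Equiv.arrowCongr σ (Equiv.refl (Fin n))).symm.sum_comp]
    refine Finset.sum_congr rfl fun f _ => ?_
    have e1 : (Equiv.arrowCongr σ (Equiv.refl (Fin n))).symm f = f ∘ σ := by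
      ext i; simp
    rw [e1]
    have e2 : (B.submatrix (f ∘ σ) id).det = ((σ.sign : ℤ) : ℝ) * (B.submatrix f id).det := by
      have := Matrix.det_permute σ (B.submatrix f id)
      simpa [Matrix.submatrix_submatrix] using this
    rw [e2]
    rfl
  have h3 : (k.factorial : ℝ) * (A * B).det = ∑ _σ : Equiv.Perm (Fin k), (A * B).det := by
    rw [Finset.sum_const, Finset.card_univ, Fintype.card_perm, Fintype.card_fin, nsmul_eq_mul]
  rw [h3]
  rw [Finset.sum_congr rfl fun σ _ => h2 σ, Finset.sum_comm]
  refine Finset.sum_congr rfl fun f _ => ?_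
  rw [← Matrix.det_transpose (A.submatrix id f), Matrix.det_apply' (A.submatrix id f)ᵀ,
    Finset.sum_mul]
  refine Finset.sum_congr rfl fun σ _ => ?_
  simp only [Matrix.transpose_apply, Matrix.submatrix_apply, id]
  ring

/-- An injective function is an order embedding up to a permutation. -/
theorem exists_orderEmb_of_injective {k n : ℕ} (f : Fin k → Fin n) (hf : Function.Injective f) :
    ∃ (c : Fin k ↪o Fin n) (σ : Equiv.Perm (Fin k)), f = c ∘ σ := by
  have hmono : Monotone (f ∘ Tuple.sort f) := Tuple.monotone_sort f
  have hinj : Function.Injective (f ∘ Tuple.sort f) := hf.comp (Tuple.sort f).injective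
  refine ⟨OrderEmbedding.ofStrictMono _ (hmono.strictMono_of_injective hinj),
    (Tuple.sort f)⁻¹, ?_⟩
  ext i
  simp [OrderEmbedding.ofStrictMono]

theorem det_mul_pos {k n : ℕ} (A : Matrix (Fin k) (Fin n) ℝ) (B : Matrix (Fin n) (Fin k) ℝ)
    (hkn : k ≤ n)
    (h : ∀ c : Fin k ↪o Fin n, 0 < (A.submatrix id c).det * (B.submatrix c id).det) :
    0 < (A * B).det := by
  classical
  have hpos : 0 < ∑ f : Fin k → Fin n, (A.submatrix id f).det * (B.submatrix f id).det := by
    have hterm : ∀ f : Fin k → Fin n,
        (Function.Injective f → 0 < (A.submatrix id f).det * (B.submatrix f id).det) ∧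
        0 ≤ (A.submatrix id f).det * (B.submatrix f id).det := by
      intro f
      by_cases hf : Function.Injective f
      · have : 0 < (A.submatrix id f).det * (B.submatrix f id).det := by
          obtain ⟨c, σ, rfl⟩ := exists_orderEmb_of_injective f hf
          have e1 : (A.submatrix id (c ∘ σ)).det =
              ((σ.sign : ℤ) : ℝ) * (A.submatrix id c).det := by
            have := Matrix.det_permute' σ (A.submatrix id c)
            simpa [Matrix.submatrix_submatrix] using this
          have e2 : (B.submatrix (c ∘ σ) id).det =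
              ((σ.sign : ℤ) : ℝ) * (B.submatrix c id).det := by
            have := Matrix.det_permute σ (B.submatrix c id)
            simpa [Matrix.submatrix_submatrix] using this
          rw [e1, e2]
          have hs : ((σ.sign : ℤ) : ℝ) * ((σ.sign : ℤ) : ℝ) = 1 := by
            rcases Int.units_eq_one_or σ.sign with h | h <;> simp [h]
          calc (0:ℝ) < (A.submatrix id c).det * (B.submatrix c id).det := h c
            _ = (((σ.sign : ℤ) : ℝ) * ((σ.sign : ℤ) : ℝ)) *
                ((A.submatrix id c).det * (B.submatrix c id).det) := by rw [hs, one_mul]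
            _ = _ := by ring
        exact ⟨fun _ => this, this.le⟩
      · refine ⟨fun h => absurd h hf, ?_⟩
        simp only [Function.Injective, not_forall] at hf
        obtain ⟨i, j, hij, hne⟩ := hf
        have : (B.submatrix f id).det = 0 :=
          Matrix.det_zero_of_row_eq hne (by ext l; simp [hij])
        rw [this, mul_zero]
    refine Finset.sum_pos' (fun f _ => (hterm f).2) ⟨Fin.castLE hkn, Finset.mem_univ _, ?_⟩
    exact (hterm _).1 (Fin.castLE_injective hkn)
  rw [← factorial_mul_det_mul] at hpos
  exact lt_of_mul_lt_mul_left (by simpa using hpos) (by positivity : (0:ℝ) ≤ (k.factorial : ℝ))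

/-- The square of a strictly sign regular matrix is strictly totally positive. -/
theorem SP_mul_self {n : ℕ} (A : Matrix (Fin n) (Fin n) ℝ) (ε : ℕ → ℝ)
    (h : ∀ (k : ℕ) (r c : Fin k ↪o Fin n), 0 < ε k * (A.submatrix r c).det) :
    SP (A * A) := by
  intro k r c
  have e : (A * A).submatrix r c = (A.submatrix r id) * (A.submatrix id c) := by
    ext i j
    simp [Matrix.mul_apply]
  rw [e]
  refine det_mul_pos _ _ ?_ fun d => ?_
  · simpa using Fintype.card_le_of_embedding r.toEmbedding
  · have h1 := h k r d
    have h2 := h k d c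
    have h3 := mul_pos h1 h2
    simp only [Matrix.submatrix_submatrix, Function.comp_id, Function.id_comp]
    have h4 : 0 < (ε k * ε k) * ((A.submatrix r d).det * (A.submatrix d c).det) := by
      calc (0:ℝ) < _ := h3
        _ = _ := by ring
    exact lt_of_mul_lt_mul_left (by simpa using h4) (mul_self_nonneg (ε k))

end OkamotoTP
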